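import Pool.Agent.H54.TT.Gl2

/-!
# The group `GL₂` of group algebras of torsion-free abelian groups
-/

set_option autoImplicit false

namespace Pool.Agent.H54.TT

open LaurentPolynomial Pool.Agent.H98.FJ Pool.Agent.H54.CX

variable {C : (G : Type) → [Group G] → Prop}

theorem gl2map_injective {R S : Type} [CommRing R] [CommRing S] (φ : R →+* S)
    (hφ : Function.Injective φ) :
    Function.Injective (Matrix.GeneralLinearGroup.map (n := Fin 2) φ) := by
  intro g g' hg
  apply Units.ext
  ext1 i j
  apply hφ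
  have := congrArg (fun m : GL (Fin 2) S => m.val i j) hg
  simpa using this

theorem gl2_of_injective (hC : Inherits C) {R S : Type} [CommRing R] [CommRing S] (φ : R →+* S)
    (hφ : Function.Injective φ) (h : C (GL (Fin 2) S)) : C (GL (Fin 2) R) :=
  hC.of_injective (Matrix.GeneralLinearGroup.map φ) (gl2map_injective φ hφ) h

theorem units_infinite (R : Type) [CommRing R] [IsDomain R] : Infinite (R[T;T⁻¹])ˣ := by
  let f : ℤ → (R[T;T⁻¹])ˣ := fun n =>
    { val := T n
      inv := T (-n)
      val_inv := by rw [← T_add, add_neg_cancel, T_zero]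
      inv_val := by rw [← T_add, neg_add_cancel, T_zero] }
  refine Infinite.of_injective f ?_
  intro m n h
  have h1 : (T m : R[T;T⁻¹]) = T n := congrArg Units.val h
  have h2 := congrArg (io R 1) h1
  rw [io_T, io_T] at h2
  have h3 := congrArg HahnSeries.order h2
  rw [HahnSeries.order_single one_ne_zero, HahnSeries.order_single one_ne_zero] at h3
  omega

/-- finitely generated free abelian groups -/
theorem gl_zn (hC : Inherits C) (hE : Extension C) (h2 : Cat2 C) (n : ℕ) :
    ∀ (R : Type) [CommRing R] [IsDomain R], (Finite R ∨ Infinite Rˣ) → C (GL (Fin 2) R) →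
      C (GL (Fin 2) (AddMonoidAlgebra R (Fin n → ℤ))) := by
  induction n with
  | zero =>
    intro R _ _ _ hR
    exact gl2_of_injective hC (AddMonoidAlgebra.uniqueRingEquiv (Fin 0 → ℤ)).toRingHom
      (AddMonoidAlgebra.uniqueRingEquiv (R := R) (Fin 0 → ℤ)).injective hR
  | succ n ih =>
    intro R _ _ hu hR
    have hR' : C (GL (Fin 2) R[T;T⁻¹]) := gl_laurent R hC hE h2 hu hR
    have h1 : C (GL (Fin 2) (AddMonoidAlgebra R[T;T⁻¹] (Fin n → ℤ))) :=
      ih R[T;T⁻¹] (Or.inr (units_infinite R)) hR'
    let e : (Fin (n + 1) → ℤ) ≃+ (Fin n → ℤ) × ℤ :=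
      { toFun := fun x => (fun i => x i.succ, x 0)
        invFun := fun p => Fin.cons p.2 p.1
        left_inv := fun x => by
          funext i
          refine Fin.cases ?_ (fun i => ?_) i <;> simp
        right_inv := fun p => by simp
        map_add' := fun x y => rfl }
    let E : AddMonoidAlgebra R (Fin (n + 1) → ℤ) ≃+* AddMonoidAlgebra R[T;T⁻¹] (Fin n → ℤ) :=
      (AddMonoidAlgebra.mapDomainRingEquiv R e).trans AddMonoidAlgebra.curryRingEquiv
    exact gl2_of_injective hC E.toRingHom E.injective h1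

/-- group algebras of torsion-free abelian groups -/
theorem gl_groupAlgebra (hC : Inherits C) (hE : Extension C) (h2 : Cat2 C) (R A : Type)
    [CommRing R] [IsDomain R] [AddCommGroup A] [IsAddTorsionFree A] (hu : Finite R ∨ Infinite Rˣ)
    (hR : C (GL (Fin 2) R)) : C (GL (Fin 2) (AddMonoidAlgebra R A)) := by
  classical
  let B : Finset A → AddSubgroup A := fun s => AddSubgroup.closure (s : Set A)
  have hB : ∀ {s t : Finset A}, s ⊆ t → B s ≤ B t := fun h =>
    AddSubgroup.closure_mono (by exact_mod_cast h)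
  let φ : ∀ s : Finset A, AddMonoidAlgebra R (B s) →+* AddMonoidAlgebra R A := fun s =>
    AddMonoidAlgebra.mapDomainRingHom R (B s).subtype
  have hφ : ∀ s, Function.Injective (φ s) := fun s =>
    AddMonoidAlgebra.mapDomain_injective Subtype.val_injective
  let S : Finset A → Subgroup (GL (Fin 2) (AddMonoidAlgebra R A)) := fun s =>
    (Matrix.GeneralLinearGroup.map (n := Fin 2) (φ s)).range
  have hcomp : ∀ {s t : Finset A} (hst : s ⊆ t), (φ t).comp
      (AddMonoidAlgebra.mapDomainRingHom R (AddSubgroup.inclusion (hB hst))) = φ s := by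
    intro s t hst
    rw [← AddMonoidAlgebra.mapDomainRingHom_comp]
    rfl
  refine hC.union S ?_ ?_ ?_
  · rintro s t hst _ ⟨g, rfl⟩
    refine ⟨Matrix.GeneralLinearGroup.map (n := Fin 2)
      (AddMonoidAlgebra.mapDomainRingHom R (AddSubgroup.inclusion (hB hst))) g, ?_⟩
    apply Units.ext
    ext1 i j
    exact RingHom.congr_fun (hcomp hst) (g.val i j)
  · intro g
    -- the entries of the matrix and of its inverse
    have hex : ∀ p : AddMonoidAlgebra R A, ∃ s : Finset A, ∀ t, s ⊆ t → p ∈ (φ t).range := by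
      intro p
      refine ⟨p.coeff.support, fun t hst => ?_⟩
      rw [← AddMonoidAlgebra.sum_coeff_single p]
      refine Subring.sum_mem _ ?_
      intro a ha
      refine ⟨AddMonoidAlgebra.single ⟨a, AddSubgroup.subset_closure (hst ha)⟩ (p.coeff a), ?_⟩
      show AddMonoidAlgebra.mapDomain _ _ = _
      rw [AddMonoidAlgebra.mapDomain_single]
      rfl
    choose s hs using hex
    let t : Finset A := Finset.univ.biUnion fun i : Fin 2 => Finset.univ.biUnion fun j : Fin 2 =>
      s (g.val i j) ∪ s (g⁻¹.val i j)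
    have h1 : ∀ i j, g.val i j ∈ (φ t).range := fun i j => hs _ t (by
      intro x hx
      exact Finset.mem_biUnion.2 ⟨i, Finset.mem_univ _, Finset.mem_biUnion.2 ⟨j, Finset.mem_univ _,
        Finset.mem_union_left _ hx⟩⟩)
    have h2 : ∀ i j, g⁻¹.val i j ∈ (φ t).range := fun i j => hs _ t (by
      intro x hx
      exact Finset.mem_biUnion.2 ⟨i, Finset.mem_univ _, Finset.mem_biUnion.2 ⟨j, Finset.mem_univ _,
        Finset.mem_union_right _ hx⟩⟩)
    choose A' hA using h1
    choose B' hB' using h2
    have hAB : ∀ (P Q : Fin 2 → Fin 2 → AddMonoidAlgebra R (B t))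
        (g h : GL (Fin 2) (AddMonoidAlgebra R A)),
        (∀ i j, φ t (P i j) = g.val i j) → (∀ i j, φ t (Q i j) = h.val i j) → g * h = 1 →
        Matrix.of P * Matrix.of Q = 1 := by
      intro P Q g h hP hQ hgh
      ext1 i j
      apply hφ t
      have h3 := congrArg (fun m : GL (Fin 2) (AddMonoidAlgebra R A) => m.val i j) hgh
      simp only [Units.val_mul, Matrix.mul_apply, Units.val_one] at h3
      rw [Matrix.mul_apply, map_sum]
      simp only [map_mul, Matrix.of_apply, hP, hQ]
      rw [h3, Matrix.one_apply, Matrix.one_apply]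
      split
      · rw [map_one]
      · rw [map_zero]
    refine ⟨t, ⟨⟨Matrix.of A', Matrix.of B', hAB A' B' g g⁻¹ hA hB' (mul_inv_cancel g),
      hAB B' A' g⁻¹ g hB' hA (inv_mul_cancel g)⟩, ?_⟩⟩
    apply Units.ext
    ext1 i j
    exact hA i j
  · intro s
    have hfg : AddGroup.FG (B s) := (AddGroup.fg_iff_addSubgroup_fg _).2 ⟨s, rfl⟩
    have hfin : Module.Finite ℤ (B s) := Module.Finite.iff_addGroup_fg.2 hfg
    have htf : IsAddTorsionFree (B s) := inferInstance
    have hfree : Module.Free ℤ (B s) := inferInstance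
    let b := Module.finBasis ℤ (B s)
    let e : B s ≃+ (Fin (Module.finrank ℤ (B s)) → ℤ) := b.equivFun.toAddEquiv
    have h3 : C (GL (Fin 2) (AddMonoidAlgebra R (B s))) :=
      gl2_of_injective hC (AddMonoidAlgebra.mapDomainRingEquiv R e).toRingHom
        (AddMonoidAlgebra.mapDomainRingEquiv R e).injective (gl_zn hC hE h2 _ R hu hR)
    exact hC.iso _ _ (MonoidHom.ofInjective (gl2map_injective (φ s) (hφ s))) h3

end Pool.Agent.H54.TT
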