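import Pool.Agent.H54.TT.Two

/-!
# Groups which act on two trees: arbitrary trees and actions

The group need not preserve the two colours of a tree; a subgroup of index at most two does. A tree with one vertex is
replaced by the tree with two vertices and the trivial action.
-/

set_option autoImplicit false

namespace Pool.Agent.H54.TT

open Pool.Agent.H54.CX Pool.Agent.H98.FJ

/-- coloured trees with an action of `K` and an equivariant relation to the vertices of `S` -/
def Good {G V : Type} [Group G] [MulAction G V] (K : Subgroup G) : Prop :=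
  ∃ (V₁ : Type) (_ : MulAction K V₁) (S₁ : CTree V₁), Ac S₁ K ∧
    ∃ m : V₁ → V, ∀ (k : K) (x : V₁), k • x = x → (k : G) • m x = m x

theorem Good.mono {G V : Type} [Group G] [MulAction G V] {K L : Subgroup G} (h : L ≤ K)
    (hK : Good (V := V) K) : Good (V := V) L := by
  obtain ⟨V₁, act, S₁, hA, m, hm⟩ := hK
  letI : MulAction L V₁ := MulAction.compHom V₁ (Subgroup.inclusion h)
  refine ⟨V₁, inferInstance, S₁, ⟨fun g a b hab => ?_, fun g a => ?_⟩, m, fun k x hx => ?_⟩
  · exact hA.adj (Subgroup.inclusion h g) a b hab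
  · exact hA.col (Subgroup.inclusion h g) a
  · exact hm (Subgroup.inclusion h k) x hx

theorem norm {G V : Type} [Group G] [MulAction G V] (S : SimpleGraph V) (hS : S.IsTree)
    (hadj : ∀ (g : G) (a b : V), S.Adj a b → S.Adj (g • a) (g • b)) :
    ∃ K : Subgroup G, K.FiniteIndex ∧ Good (V := V) K := by
  classical
  obtain ⟨o⟩ := hS.connected.nonempty
  rcases subsingleton_or_nontrivial V with hV | hV
  · refine ⟨⊤, inferInstance, Bool, ?_⟩
    letI : MulAction (⊤ : Subgroup G) Bool :=
      { smul := fun _ x => x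
        one_smul := fun _ => rfl
        mul_smul := fun _ _ _ => rfl }
    have hT : (⊤ : SimpleGraph Bool).IsTree := by
      refine ⟨?_, SimpleGraph.IsAcyclic.of_card_le_two (by simp)⟩
      exact SimpleGraph.connected_top
    refine ⟨inferInstance, ⟨⊤, hT, id, fun a b h => h, fun a => ⟨!a, ?_⟩⟩,
      ⟨fun g a b h => h, fun g a => rfl⟩, fun _ => o, fun k x _ => Subsingleton.elim _ _⟩
    cases a <;> simp
  · -- the colouring by the parity of the distance to `o`
    let c : V → Bool := fun v => decide (S.dist o v % 2 = 1)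
    have hc : ∀ a b, S.Adj a b → c a ≠ c b := by
      intro a b h h'
      have h1 : (S.dist o a % 2 = 1) ↔ (S.dist o b % 2 = 1) := by
        have h2 : decide (S.dist o a % 2 = 1) = decide (S.dist o b % 2 = 1) := h'
        simpa using h2
      rcases hS.dist_eq_dist_add_one_of_adj o h with h2 | h2 <;> omega
    have hc' : ∀ a b, S.Adj a b → c b = !(c a) := by
      intro a b h
      have := hc a b h
      revert this
      cases c a <;> cases c b <;> simp
    -- two colourings differ by a constant
    have hconst : ∀ (g : G) (v : V), c (g • v) = xor (xor (c (g • o)) (c o)) (c v) := by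
      intro g v
      obtain ⟨p⟩ := hS.connected o v
      have key : ∀ {a b : V} (p : S.Walk a b), c (g • b) = xor (xor (c (g • a)) (c a)) (c b) := by
        intro a b p
        induction p with
        | nil => cases c (g • _) <;> simp
        | @cons a b d h p ih =>
          rw [ih, hc' a b h, hc' _ _ (hadj g a b h)]
          cases c (g • a) <;> cases c a <;> cases c d <;> rfl
      exact key p
    let K : Subgroup G :=
      { carrier := {g | ∀ v, c (g • v) = c v}
        mul_mem' := by
          intro g h hg hh v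
          rw [mul_smul, hg, hh]
        one_mem' := fun v => by rw [one_smul]
        inv_mem' := by
          intro g hg v
          have := hg (g⁻¹ • v)
          rw [smul_inv_smul] at this
          exact this.symm }
    -- the index
    let χ : G →* Multiplicative (ZMod 2) :=
      { toFun := fun g => Multiplicative.ofAdd (if xor (c (g • o)) (c o) then 1 else 0)
        map_one' := by simp
        map_mul' := by
          intro g h
          rw [mul_smul, hconst g (h • o), ← ofAdd_add]
          congr 1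
          cases c (g • o) <;> cases c (h • o) <;> cases c o <;> decide }
    have hK : χ.ker ≤ K := by
      intro g hg v
      have h1 : (if xor (c (g • o)) (c o) then (1 : ZMod 2) else 0) = 0 := by
        have h2 : χ g = 1 := hg
        exact Multiplicative.ofAdd.injective h2
      have h3 : xor (c (g • o)) (c o) = false := by
        cases h : xor (c (g • o)) (c o)
        · rfl
        · rw [h] at h1
          simp at h1
      rw [hconst, h3, Bool.false_xor]
    have hfin : K.FiniteIndex := by
      have : χ.ker.FiniteIndex := inferInstance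
      exact Subgroup.finiteIndex_of_le hK
    refine ⟨K, hfin, V, inferInstance, ⟨S, hS, c, hc, fun a => ?_⟩, ⟨fun g a b h => ?_, fun g a => ?_⟩,
      id, fun k x hx => hx⟩
    · exact hS.connected.preconnected.exists_adj_of_nontrivial a
    · exact hadj g a b h
    · exact g.2 a

section

variable {C : (G : Type) → [Group G] → Prop}

open Classical in
/-- a group which acts on two trees such that finitely generated subgroups have homomorphisms to groups of the class which
are injective on finitely many stabilisers of pairs of vertices -/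
theorem two_trees (hC : Inherits C) (hE : Extension C) (h2 : Cat2 C) (G V W : Type) [Group G]
    [MulAction G V] [MulAction G W] (S : SimpleGraph V) (T : SimpleGraph W) (hS : S.IsTree)
    (hT : T.IsTree) (hSa : ∀ (g : G) (a b : V), S.Adj a b → S.Adj (g • a) (g • b))
    (hTa : ∀ (g : G) (a b : W), T.Adj a b → T.Adj (g • a) (g • b))
    (hloc : ∀ H : Subgroup G, H.FG → ∀ (F : Finset V) (F' : Finset W),
      ∃ (Q : Type) (_ : Group Q) (f : H →* Q), C Q ∧
        ∀ v ∈ F, ∀ w ∈ F', ∀ g : H, (g : G) • v = v → (g : G) • w = w → f g = 1 → g = 1) : C G := by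
  obtain ⟨K₁, hK₁, hG₁⟩ := norm S hS hSa
  obtain ⟨K₂, hK₂, hG₂⟩ := norm T hT hTa
  have hfi : (K₁ ⊓ K₂).FiniteIndex := inferInstance
  refine hC.index G (K₁ ⊓ K₂) hfi ?_
  obtain ⟨V₁, _, S₁, hA₁, m₁, hm₁⟩ := hG₁.mono inf_le_left (L := K₁ ⊓ K₂)
  obtain ⟨V₂, _, S₂, hA₂, m₂, hm₂⟩ := hG₂.mono inf_le_right (L := K₁ ⊓ K₂)
  refine hC.union (ι := Finset (K₁ ⊓ K₂ : Subgroup G))
    (fun s => Subgroup.closure (s : Set (K₁ ⊓ K₂ : Subgroup G))) ?_ ?_ ?_
  · intro s t hst
    exact Subgroup.closure_mono (by exact_mod_cast hst)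
  · intro g
    exact ⟨{g}, Subgroup.subset_closure (by simp)⟩
  · intro s
    set L : Subgroup (K₁ ⊓ K₂ : Subgroup G) := Subgroup.closure (s : Set (K₁ ⊓ K₂ : Subgroup G))
    have hB₁ : Ac S₁ L := ⟨fun g a b h => hA₁.adj (g : (K₁ ⊓ K₂ : Subgroup G)) a b h,
      fun g a => hA₁.col (g : (K₁ ⊓ K₂ : Subgroup G)) a⟩
    have hB₂ : Ac S₂ L := ⟨fun g a b h => hA₂.adj (g : (K₁ ⊓ K₂ : Subgroup G)) a b h,
      fun g a => hA₂.col (g : (K₁ ⊓ K₂ : Subgroup G)) a⟩
    refine two_col hC hE h2 hB₁ hB₂ ?_
    intro F F'
    have hfg : (L.map (K₁ ⊓ K₂).subtype).FG := by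
      refine ⟨s.image (K₁ ⊓ K₂).subtype, ?_⟩
      rw [Finset.coe_image, ← MonoidHom.map_closure]
    obtain ⟨Q, _, f, hQ, hf⟩ := hloc (L.map (K₁ ⊓ K₂).subtype) hfg (F.image m₁) (F'.image m₂)
    let e : L →* L.map (K₁ ⊓ K₂).subtype :=
      { toFun := fun x => ⟨((x : (K₁ ⊓ K₂ : Subgroup G)) : G), ⟨x, x.2, rfl⟩⟩
        map_one' := rfl
        map_mul' := fun _ _ => rfl }
    refine ⟨Q, inferInstance, f.comp e, hQ, ?_⟩
    intro v hv w hw g hgv hgw hfg
    have h3 := hf _ (Finset.mem_image_of_mem _ hv) _ (Finset.mem_image_of_mem _ hw) (e g)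
      (hm₁ _ v hgv) (hm₂ _ w hgw) hfg
    have h4 := congrArg Subtype.val h3
    exact Subtype.ext (Subtype.ext h4)

/-- a group which acts on two trees such that the stabilisers of the pairs of vertices are finite -/
theorem two_trees_fin (hC : Inherits C) (h2 : Cat2 C) (G V W : Type) [Group G]
    [MulAction G V] [MulAction G W] (S : SimpleGraph V) (T : SimpleGraph W) (hS : S.IsTree)
    (hT : T.IsTree) (hSa : ∀ (g : G) (a b : V), S.Adj a b → S.Adj (g • a) (g • b))
    (hTa : ∀ (g : G) (a b : W), T.Adj a b → T.Adj (g • a) (g • b))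
    (hfin : ∀ (v : V) (w : W), {g : G | g • v = v ∧ g • w = w}.Finite) : C G := by
  obtain ⟨K₁, hK₁, hG₁⟩ := norm S hS hSa
  obtain ⟨K₂, hK₂, hG₂⟩ := norm T hT hTa
  have hfi : (K₁ ⊓ K₂).FiniteIndex := inferInstance
  refine hC.index G (K₁ ⊓ K₂) hfi ?_
  obtain ⟨V₁, _, S₁, hA₁, m₁, hm₁⟩ := hG₁.mono inf_le_left (L := K₁ ⊓ K₂)
  obtain ⟨V₂, _, S₂, hA₂, m₂, hm₂⟩ := hG₂.mono inf_le_right (L := K₁ ⊓ K₂)
  refine two_col_fin hC h2 hA₁ hA₂ ?_
  intro v w
  refine Set.Finite.of_finite_image (f := Subtype.val)
    ((hfin (m₁ v) (m₂ w)).subset ?_) Subtype.val_injective.injOn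
  rintro _ ⟨g, ⟨h1, h3⟩, rfl⟩
  exact ⟨hm₁ g v h1, hm₂ g w h3⟩

end

end Pool.Agent.H54.TT
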