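import Pool.Agent.H54.TT.Lau
import Pool.Agent.H54.TT.Norm

/-!
# The group `GL₂` of Laurent polynomial rings

`GL₂(R[T, T⁻¹])` acts on the trees of the two valuations of the field of the rational functions, `ord₀` and `- deg`. The
elements with determinant of valuation zero in the stabiliser of a pair of vertices have bounded entries.
-/

set_option autoImplicit false

namespace Pool.Agent.H54.TT

open LaurentPolynomial Pool.Agent.H98.FJ Pool.Agent.H54.CX Pool.Agent.H54.DD Matrix

section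

variable (R : Type) [CommRing R] [IsDomain R]

/-- the sum of the two orders is at most zero -/
theorem order_add_le {x : R[T;T⁻¹]} (hx : x ≠ 0) :
    (io R 1 x).order + (io R (-1) x).order ≤ 0 := by
  obtain ⟨n, hn⟩ : ∃ n : ℤ, x.coeff n ≠ 0 := by
    by_contra h
    push Not at h
    apply hx
    ext n
    rw [h n]
    rfl
  have h0 : algebraMap R (FractionRing R) (x.coeff n) ≠ 0 := by
    intro h
    exact hn ((IsFractionRing.injective R (FractionRing R)) (by rw [h, map_zero]))
  have h1 : (io R 1 x).order ≤ n * 1 := by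
    apply HahnSeries.order_le_of_coeff_ne_zero
    rwa [io_coeff R 1 (Or.inl rfl)]
  have h2 : (io R (-1) x).order ≤ n * (-1) := by
    apply HahnSeries.order_le_of_coeff_ne_zero
    rwa [io_coeff R (-1) (Or.inr rfl)]
  omega

theorem io_ne_zero (s : ℤ) (hs : s = 1 ∨ s = -1) {x : R[T;T⁻¹]} (hx : x ≠ 0) : io R s x ≠ 0 :=
  fun h => hx (io_injective R s hs (by rw [h, map_zero]))

/-- the two orders of a unit are opposite -/
theorem unit_order (d : (R[T;T⁻¹])ˣ) :
    (io R (-1) (d : R[T;T⁻¹])).order = - (io R 1 (d : R[T;T⁻¹])).order := by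
  have key : ∀ s : ℤ, (s = 1 ∨ s = -1) → (io R s (d : R[T;T⁻¹])).order +
      (io R s ((d⁻¹ : (R[T;T⁻¹])ˣ) : R[T;T⁻¹])).order = 0 := by
    intro s hs
    rw [← (isDV_order (FractionRing R)).mul _ _ (io_ne_zero R s hs d.ne_zero)
      (io_ne_zero R s hs d⁻¹.ne_zero), ← map_mul, ← Units.val_mul, mul_inv_cancel, Units.val_one,
      map_one]
    exact (isDV_order (FractionRing R)).one
  have h1 := key 1 (Or.inl rfl)
  have h2 := key (-1) (Or.inr rfl)
  have h3 := order_add_le R d.ne_zero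
  have h4 := order_add_le R d⁻¹.ne_zero
  omega

/-- the embedding in the group of matrices over the field of Laurent series -/
noncomputable abbrev gam (s : ℤ) : GL (Fin 2) R[T;T⁻¹] →* GL (Fin 2) (LS R) :=
  Matrix.GeneralLinearGroup.map (io R s)

theorem gam_inj (s : ℤ) (hs : s = 1 ∨ s = -1) : Function.Injective (gam R s) := by
  intro g g' hg
  apply Units.ext
  ext1 i j
  apply io_injective R s hs
  have := congrArg (fun m : GL (Fin 2) (LS R) => m.val i j) hg
  simpa using this

/-- the order of the determinant -/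
noncomputable def wt (s : ℤ) (g : GL (Fin 2) R[T;T⁻¹]) : ℤ := vd HahnSeries.order (gam R s g)

theorem wt_eq (s : ℤ) (g : GL (Fin 2) R[T;T⁻¹]) :
    wt R s g = (io R s ((Matrix.GeneralLinearGroup.det g : (R[T;T⁻¹])ˣ) : R[T;T⁻¹])).order := by
  unfold wt vd
  congr 1
  show ((gam R s g).val).det = io R s (g.val.det)
  rw [RingHom.map_det]
  rfl

theorem wt_neg (g : GL (Fin 2) R[T;T⁻¹]) : wt R (-1) g = - wt R 1 g := by
  rw [wt_eq, wt_eq, unit_order]

/-- the homomorphism to the integers -/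
noncomputable def wth : GL (Fin 2) R[T;T⁻¹] →* Multiplicative ℤ where
  toFun g := Multiplicative.ofAdd (wt R 1 g)
  map_one' := by
    unfold wt
    rw [map_one, vd_one (isDV_order (FractionRing R))]
    rfl
  map_mul' g h := by
    unfold wt
    rw [map_mul, vd_mul (isDV_order (FractionRing R))]
    rfl

/-- the scalar matrix `T` -/
noncomputable def Tc : GL (Fin 2) R[T;T⁻¹] where
  val := Matrix.scalar (Fin 2) (T 1)
  inv := Matrix.scalar (Fin 2) (T (-1))
  val_inv := by
    rw [← map_mul, ← T_add, add_neg_cancel, T_zero, map_one]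
  inv_val := by
    rw [← map_mul, ← T_add, neg_add_cancel, T_zero, map_one]

theorem Tc_comm (g : GL (Fin 2) R[T;T⁻¹]) : Commute (Tc R) g := by
  apply Units.ext
  show Matrix.scalar (Fin 2) (T 1) * g.val = g.val * Matrix.scalar (Fin 2) (T 1)
  exact (Matrix.scalar_commute _ (fun _ => Commute.all _ _) _).eq

theorem wt_Tc : wt R 1 (Tc R) = 2 := by
  rw [wt_eq]
  have : ((Matrix.GeneralLinearGroup.det (Tc R) : (R[T;T⁻¹])ˣ) : R[T;T⁻¹]) = T 2 := by
    show (Matrix.scalar (Fin 2) (T 1 : R[T;T⁻¹])).det = T 2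
    rw [Matrix.det_fin_two]
    simp only [Matrix.scalar_apply, Matrix.diagonal_apply_eq]
    rw [Matrix.diagonal_apply_ne _ (by decide), zero_mul, sub_zero, ← T_add]
    rfl
  rw [this, io_T]
  exact HahnSeries.order_single one_ne_zero

/-- matrices with entries supported in `[-N, N]` -/
def Bd (N : ℕ) (g : GL (Fin 2) R[T;T⁻¹]) : Prop :=
  ∀ i j, ∀ n : ℤ, n < -N ∨ (N : ℤ) < n → (g.val i j).coeff n = 0

/-- the stabilisers of pairs of vertices are bounded -/
theorem stab_Bd (x y : Vx (isDV_order (FractionRing R))) : ∃ N : ℕ, ∀ g : GL (Fin 2) R[T;T⁻¹],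
    wt R 1 g = 0 → gam R 1 g • x = x → gam R (-1) g • y = y → Bd R N g := by
  obtain ⟨N₁, h₁⟩ := stab_bdd (isDV_order (FractionRing R)) x
  obtain ⟨N₂, h₂⟩ := stab_bdd (isDV_order (FractionRing R)) y
  refine ⟨(max (-N₁) (-N₂)).toNat, ?_⟩
  intro g hg hx hy i j n hn
  have hg' : wt R (-1) g = 0 := by rw [wt_neg, hg, neg_zero]
  rcases hn with hn | hn
  · refine coeff_of_ge R 1 (Or.inl rfl) _ N₁ (h₁ _ hg hx i j) n ?_
    have := Int.self_le_toNat (max (-N₁) (-N₂))
    have := le_max_left (-N₁) (-N₂)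
    omega
  · refine coeff_of_ge R (-1) (Or.inr rfl) _ N₂ (h₂ _ hg' hy i j) n ?_
    have := Int.self_le_toNat (max (-N₁) (-N₂))
    have := le_max_right (-N₁) (-N₂)
    omega

theorem Bd.mono {N M : ℕ} (h : N ≤ M) {g : GL (Fin 2) R[T;T⁻¹]} (hg : Bd R N g) : Bd R M g := by
  intro i j n hn
  apply hg i j n
  omega

/-- the vertices, with the action through the embedding `T ↦ x ^ s` -/
noncomputable def Vs (_ : ℤ) : Type := Vx (isDV_order (FractionRing R))

noncomputable instance (s : ℤ) : MulAction (GL (Fin 2) R[T;T⁻¹]) (Vs R s) :=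
  MulAction.compHom (Vx (isDV_order (FractionRing R))) (gam R s)

/-- the tree -/
noncomputable def Ts (s : ℤ) : SimpleGraph (Vs R s) := Tv (isDV_order (FractionRing R))

theorem Ts_isTree (s : ℤ) : (Ts R s).IsTree := isTree (isDV_order (FractionRing R))

theorem Ts_adj (s : ℤ) (g : GL (Fin 2) R[T;T⁻¹]) (x y : Vs R s) (h : (Ts R s).Adj x y) :
    (Ts R s).Adj (g • x) (g • y) :=
  adj_smul (isDV_order (FractionRing R)) (gam R s g) x y h

/-- a common bound for finitely many pairs of vertices -/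
theorem stab_Bd_fin (F : Finset (Vs R 1)) (F' : Finset (Vs R (-1))) : ∃ N : ℕ,
    ∀ v ∈ F, ∀ w ∈ F', ∀ g : GL (Fin 2) R[T;T⁻¹], g ∈ (wth R).ker → g • v = v → g • w = w →
      Bd R N g := by
  classical
  have h : ∀ (v : Vs R 1) (w : Vs R (-1)), ∃ N : ℕ, ∀ g : GL (Fin 2) R[T;T⁻¹],
      g ∈ (wth R).ker → g • v = v → g • w = w → Bd R N g := by
    intro v w
    obtain ⟨N, hN⟩ := stab_Bd R v w
    refine ⟨N, fun g hg h1 h2 => hN g ?_ h1 h2⟩
    exact Multiplicative.ofAdd.injective hg
  choose N hN using h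
  refine ⟨(F ×ˢ F').sup fun p => N p.1 p.2, ?_⟩
  intro v hv w hw g hg h1 h2
  exact (hN v w g hg h1 h2).mono R
    (Finset.le_sup (f := fun p : Vs R 1 × Vs R (-1) => N p.1 p.2) (Finset.mk_mem_product hv hw))

end

section

variable {C : (G : Type) → [Group G] → Prop} (R : Type) [CommRing R] [IsDomain R]

/-- infinitely many units -/
theorem ker_mem_of_infinite (hC : Inherits C) (hE : Extension C) (h2 : Cat2 C)
    (hu : Infinite Rˣ) (hR : C (GL (Fin 2) R)) : C (wth R).ker := by
  refine two_trees hC hE h2 (wth R).ker (Vs R 1) (Vs R (-1)) (Ts R 1) (Ts R (-1)) (Ts_isTree R 1)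
    (Ts_isTree R (-1)) (fun g a b h => Ts_adj R 1 g a b h) (fun g a b h => Ts_adj R (-1) g a b h) ?_
  intro H _ F F'
  obtain ⟨N, hN⟩ := stab_Bd_fin R F F'
  let u : Fin (2 * N + 1) → Rˣ := fun i => Infinite.natEmbedding Rˣ i
  have hu : Function.Injective u := fun i j h =>
    Fin.ext ((Infinite.natEmbedding Rˣ).injective h)
  let f : ∀ i : Fin (2 * N + 1), H →* GL (Fin 2) R := fun i =>
    (Matrix.GeneralLinearGroup.map (ev R (u i))).comp ((wth R).ker.subtype.comp H.subtype)
  refine ⟨Fin (2 * N + 1) → GL (Fin 2) R, inferInstance, MonoidHom.pi f,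
    hC.pi _ inferInstance _ (fun _ => hR), ?_⟩
  intro v hv w hw g hgv hgw hfg
  have hB : Bd R N ((g : (wth R).ker) : GL (Fin 2) R[T;T⁻¹]) :=
    hN v hv w hw _ (g : (wth R).ker).2 hgv hgw
  apply Subtype.ext
  apply Subtype.ext
  apply Units.ext
  ext1 i j
  have h3 : (((g : (wth R).ker) : GL (Fin 2) R[T;T⁻¹]).val i j) - (1 : Matrix (Fin 2) (Fin 2) R[T;T⁻¹]) i j = 0 := by
    refine eq_zero_of_ev R N _ ?_ u hu ?_
    · intro n hn
      have h4 : ((1 : Matrix (Fin 2) (Fin 2) R[T;T⁻¹]) i j).coeff n = 0 := by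
        rw [Matrix.one_apply]
        split_ifs
        · rw [AddMonoidAlgebra.one_def, AddMonoidAlgebra.coeff_single, Finsupp.single_apply,
            if_neg (by omega)]
        · rfl
      have h5 := hB i j n hn
      rw [AddMonoidAlgebra.coeff_sub, Finsupp.sub_apply, h5, h4, sub_zero]
    · intro k
      have h6 : f k g = 1 := congrFun hfg k
      have h7 := congrArg (fun m : GL (Fin 2) R => m.val i j) h6
      have h8 : ev R (u k) (((g : (wth R).ker) : GL (Fin 2) R[T;T⁻¹]).val i j) =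
        (1 : Matrix (Fin 2) (Fin 2) R) i j := h7
      rw [map_sub, h8, Matrix.one_apply, Matrix.one_apply]
      split_ifs
      · rw [map_one, sub_self]
      · rw [map_zero, sub_self]
  exact sub_eq_zero.1 h3

/-- finite rings -/
theorem ker_mem_of_finite (hC : Inherits C) (h2 : Cat2 C) (hR : Finite R) : C (wth R).ker := by
  refine two_trees_fin hC h2 (wth R).ker (Vs R 1) (Vs R (-1)) (Ts R 1) (Ts R (-1)) (Ts_isTree R 1)
    (Ts_isTree R (-1)) (fun g a b h => Ts_adj R 1 g a b h) (fun g a b h => Ts_adj R (-1) g a b h) ?_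
  intro v w
  obtain ⟨N, hN⟩ := stab_Bd_fin R {v} {w}
  let c : (wth R).ker → (Fin 2 → Fin 2 → Finset.Icc (-(N : ℤ)) N → R) := fun g i j n =>
    ((g : GL (Fin 2) R[T;T⁻¹]).val i j).coeff (n : ℤ)
  refine Set.Finite.of_finite_image (f := c) (Set.toFinite _) ?_
  rintro g ⟨hg1, hg2⟩ g' ⟨hg1', hg2'⟩ hgg
  have hB := hN v (Finset.mem_singleton_self _) w (Finset.mem_singleton_self _) _ g.2 hg1 hg2
  have hB' := hN v (Finset.mem_singleton_self _) w (Finset.mem_singleton_self _) _ g'.2 hg1' hg2'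
  apply Subtype.ext
  apply Units.ext
  ext1 i j
  ext n
  by_cases hn : n ∈ Finset.Icc (-(N : ℤ)) N
  · exact congrFun (congrFun (congrFun hgg i) j) ⟨n, hn⟩
  · rw [Finset.mem_Icc] at hn
    rw [hB i j n (by omega), hB' i j n (by omega)]

/-- from the kernel to the group -/
theorem gl_of_ker (hC : Inherits C) (h : C (wth R).ker) : C (GL (Fin 2) R[T;T⁻¹]) := by
  -- the powers of the central matrix `T`
  let z : Multiplicative ℤ →* GL (Fin 2) R[T;T⁻¹] := zpowersHom _ (Tc R)
  have hz : ∀ n : ℤ, z (Multiplicative.ofAdd n) = Tc R ^ n := fun n => rfl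
  let Ψ : (wth R).ker × Multiplicative ℤ →* GL (Fin 2) R[T;T⁻¹] :=
    MonoidHom.noncommCoprod (wth R).ker.subtype z (fun g n => by
      show Commute _ (Tc R ^ (Multiplicative.toAdd n))
      exact ((Tc_comm R g.val).zpow_left _).symm)
  have hΨ : ∀ g n, Ψ (g, n) = g.val * z n := fun g n => rfl
  have hwz : ∀ n : ℤ, wth R (z (Multiplicative.ofAdd n)) = Multiplicative.ofAdd (2 * n) := by
    intro n
    rw [hz, map_zpow]
    have : wth R (Tc R) = Multiplicative.ofAdd 2 := congrArg Multiplicative.ofAdd (wt_Tc R)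
    rw [this, ← ofAdd_zsmul]
    congr 1
    rw [smul_eq_mul, mul_comm]
  have hinj : Function.Injective Ψ := by
    rw [injective_iff_map_eq_one]
    rintro ⟨g, n⟩ hgn
    rw [hΨ] at hgn
    have h1 : wth R (g.val * z n) = 1 := by rw [hgn, map_one]
    obtain ⟨n, rfl⟩ := Multiplicative.ofAdd.surjective n
    rw [map_mul, hwz, show wth R g.val = 1 from g.2, one_mul] at h1
    have h2 : (2 : ℤ) * n = 0 := Multiplicative.ofAdd.injective h1
    have hn : n = 0 := by omega
    subst hn
    have h3 : g = 1 := by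
      apply Subtype.ext
      have : z (Multiplicative.ofAdd 0) = 1 := map_one z
      rw [this, mul_one] at hgn
      exact hgn
    rw [h3]
    rfl
  have hprod : C ((wth R).ker × Multiplicative ℤ) := prod_mem hC h hC.int
  have hrange : C Ψ.range := hC.iso _ _ (MonoidHom.ofInjective hinj) hprod
  refine hC.index _ Ψ.range ?_ hrange
  -- the kernel of the reduction modulo 2
  let m : Multiplicative ℤ →* Multiplicative (ZMod 2) :=
    AddMonoidHom.toMultiplicative (Int.castAddHom (ZMod 2))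
  have hfi : (m.comp (wth R)).ker.FiniteIndex := inferInstance
  refine Subgroup.finiteIndex_of_le (H := (m.comp (wth R)).ker) ?_
  intro g hg
  have h1 : ((wt R 1 g : ℤ) : ZMod 2) = 0 := by
    have : m (wth R g) = 1 := hg
    exact Multiplicative.ofAdd.injective this
  rw [ZMod.intCast_zmod_eq_zero_iff_dvd] at h1
  obtain ⟨k, hk⟩ := h1
  have h4 : g * (z (Multiplicative.ofAdd k))⁻¹ ∈ (wth R).ker := by
    rw [MonoidHom.mem_ker, map_mul, map_inv, hwz]
    have : wth R g = Multiplicative.ofAdd (2 * k) := by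
      show Multiplicative.ofAdd (wt R 1 g) = _
      rw [hk]
      rfl
    rw [this, mul_inv_cancel]
  refine ⟨(⟨_, h4⟩, Multiplicative.ofAdd k), ?_⟩
  rw [hΨ]
  simp

/-- the step: one more variable -/
theorem gl_laurent (hC : Inherits C) (hE : Extension C) (h2 : Cat2 C)
    (hu : Finite R ∨ Infinite Rˣ) (hR : C (GL (Fin 2) R)) : C (GL (Fin 2) R[T;T⁻¹]) := by
  rcases hu with hu | hu
  · exact gl_of_ker R hC (ker_mem_of_finite R hC h2 hu)
  · exact gl_of_ker R hC (ker_mem_of_infinite R hC hE h2 hu hR)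

end

end Pool.Agent.H54.TT
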