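import Pool.Agent.H54.TT.Tree

/-!
# Laurent polynomials: the two embeddings in the field of Laurent series and the evaluations at units
-/

set_option autoImplicit false

namespace Pool.Agent.H54.TT

open LaurentPolynomial

/-- the order is a discrete valuation of the field of Laurent series -/
theorem isDV_order (F : Type) [Field F] : IsDV (K := HahnSeries ℤ F) HahnSeries.order where
  mul x y hx hy := HahnSeries.order_mul hx hy
  add x y _ _ h := HahnSeries.min_order_le_order_add h
  unif := ⟨HahnSeries.single 1 1, by simp, HahnSeries.order_single one_ne_zero⟩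

variable (R : Type) [CommRing R] [IsDomain R]

/-- the field of the Laurent series over the field of fractions -/
abbrev LS : Type := HahnSeries ℤ (FractionRing R)

/-- the unit `x ^ s`, `s = 1, -1` -/
noncomputable def xs (s : ℤ) : (LS R)ˣ where
  val := HahnSeries.single s 1
  inv := HahnSeries.single (-s) 1
  val_inv := by
    rw [HahnSeries.single_mul_single, add_neg_cancel, mul_one]
    rfl
  inv_val := by
    rw [HahnSeries.single_mul_single, neg_add_cancel, mul_one]
    rfl

theorem xs_pow (s : ℤ) (n : ℤ) : ((xs R s ^ n : (LS R)ˣ) : LS R) = HahnSeries.single (n * s) 1 := by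
  have key : ∀ n : ℕ, ((xs R s ^ n : (LS R)ˣ) : LS R) = HahnSeries.single (n * s : ℤ) 1 := by
    intro n
    induction n with
    | zero => simp
    | succ n ih =>
      rw [pow_succ, Units.val_mul, ih]
      show HahnSeries.single _ 1 * HahnSeries.single s 1 = _
      rw [HahnSeries.single_mul_single, mul_one]
      congr 2
      push_cast
      ring
  obtain ⟨m, rfl | rfl⟩ := n.eq_nat_or_neg
  · rw [zpow_natCast, key]
  · have h1 : xs R s ^ (-(m : ℤ)) * xs R s ^ m = 1 := by
      rw [zpow_neg, zpow_natCast, inv_mul_cancel]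
    have h2 : ((xs R s ^ (-(m : ℤ)) : (LS R)ˣ) : LS R) * HahnSeries.single (m * s : ℤ) 1 = 1 := by
      rw [← key, ← Units.val_mul, h1, Units.val_one]
    have h3 : (HahnSeries.single (m * s : ℤ) 1 : LS R) * HahnSeries.single (-(m : ℤ) * s) 1 = 1 := by
      rw [HahnSeries.single_mul_single, mul_one, neg_mul, add_neg_cancel]
      rfl
    calc ((xs R s ^ (-(m : ℤ)) : (LS R)ˣ) : LS R)
        = ((xs R s ^ (-(m : ℤ)) : (LS R)ˣ) : LS R) * ((HahnSeries.single (m * s : ℤ) 1 : LS R) *
          HahnSeries.single (-(m : ℤ) * s) 1) := by rw [h3, mul_one]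
      _ = HahnSeries.single (-(m : ℤ) * s) 1 := by rw [← mul_assoc, h2, one_mul]

/-- the embedding `T ↦ x ^ s` -/
noncomputable def io (s : ℤ) : R[T;T⁻¹] →+* LS R :=
  LaurentPolynomial.eval₂ ((HahnSeries.C).comp (algebraMap R (FractionRing R))) (xs R s)

theorem io_T (s n : ℤ) : io R s (T n) = HahnSeries.single (n * s) 1 := by
  unfold io
  rw [LaurentPolynomial.eval₂_T, xs_pow]

theorem io_C (s : ℤ) (a : R) :
    io R s (C a) = HahnSeries.C (algebraMap R (FractionRing R) a) := by
  unfold io
  rw [LaurentPolynomial.eval₂_C]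
  rfl

theorem io_coeff (s : ℤ) (hs : s = 1 ∨ s = -1) (f : R[T;T⁻¹]) (n : ℤ) :
    (io R s f).coeff (n * s) = algebraMap R (FractionRing R) (f.coeff n) := by
  induction f using LaurentPolynomial.induction_on' with
  | add p q hp hq =>
    rw [map_add, HahnSeries.coeff_add, hp, hq, ← map_add]
    rfl
  | C_mul_T m a =>
    rw [map_mul, io_C, io_T]
    have h1 : (HahnSeries.C (algebraMap R (FractionRing R) a) : LS R) *
        HahnSeries.single (m * s) 1 = HahnSeries.single (m * s) (algebraMap R (FractionRing R) a) := by
      rw [HahnSeries.C_apply, HahnSeries.single_mul_single, zero_add, mul_one]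
    rw [h1, ← LaurentPolynomial.single_eq_C_mul_T, AddMonoidAlgebra.coeff_single,
      HahnSeries.coeff_single, Finsupp.single_apply]
    have h2 : (n * s = m * s) ↔ (m = n) := by
      rcases hs with rfl | rfl
      · constructor <;> intro h <;> linarith
      · constructor <;> intro h <;> linarith
    by_cases h : m = n
    · rw [if_pos (h2.2 h), if_pos h]
    · rw [if_neg (fun h' => h (h2.1 h')), if_neg h, map_zero]

theorem io_injective (s : ℤ) (hs : s = 1 ∨ s = -1) : Function.Injective (io R s) := by
  rw [injective_iff_map_eq_zero]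
  intro f hf
  ext n
  have h1 := io_coeff R s hs f n
  rw [hf, HahnSeries.coeff_zero] at h1
  have h2 : f.coeff n = 0 := (IsFractionRing.injective R (FractionRing R)) (by rw [← h1, map_zero])
  rw [h2]
  rfl

/-- a lower bound for the order bounds the exponents -/
theorem coeff_of_ge (s : ℤ) (hs : s = 1 ∨ s = -1) (f : R[T;T⁻¹]) (N : ℤ)
    (h : Ge HahnSeries.order N (io R s f)) (n : ℤ) (hn : n * s < N) : f.coeff n = 0 := by
  have h1 := io_coeff R s hs f n
  have h2 : (io R s f).coeff (n * s) = 0 := by
    by_cases h0 : io R s f = 0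
    · rw [h0, HahnSeries.coeff_zero]
    · exact HahnSeries.coeff_eq_zero_of_lt_order (hn.trans_le (h h0))
  rw [h2] at h1
  exact (IsFractionRing.injective R (FractionRing R)) (by rw [← h1, map_zero])

/-- the evaluation at a unit -/
noncomputable def ev (u : Rˣ) : R[T;T⁻¹] →+* R := LaurentPolynomial.eval₂ (RingHom.id R) u

open Polynomial in
/-- a Laurent polynomial with exponents in `[-N, N]` which vanishes at more than `2 N` units is zero -/
theorem eq_zero_of_ev (N : ℕ) (f : R[T;T⁻¹]) (hf : ∀ n : ℤ, n < -N ∨ (N : ℤ) < n → f.coeff n = 0)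
    (u : Fin (2 * N + 1) → Rˣ) (hu : Function.Injective u) (h : ∀ i, ev R (u i) f = 0) : f = 0 := by
  set p : R[X] := ∑ i ∈ Finset.range (2 * N + 1), Polynomial.monomial i (f.coeff ((i : ℤ) - N)) with hp
  have h1 : toLaurent p = f * T N := by
    rw [hp, map_sum]
    ext n
    have h2 : (f * T (N : ℤ)).coeff n = f.coeff (n - N) := by
      have := AddMonoidAlgebra.coeff_mul_single_eq_coeff_mul (x := f) (r := (1 : R)) (m := (N : ℤ))
        (m₁ := n) (n - N) (by
          intro a _
          constructor <;> intro h <;> omega)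
      rw [mul_one] at this
      exact this
    rw [h2, AddMonoidAlgebra.coeff_sum, Finset.sum_apply']
    simp only [Polynomial.toLaurent_C_mul_T, ← LaurentPolynomial.single_eq_C_mul_T,
      AddMonoidAlgebra.coeff_single, Finsupp.single_apply]
    by_cases hn : 0 ≤ n ∧ n < 2 * N + 1
    · rw [Finset.sum_eq_single n.toNat]
      · rw [if_pos (by omega)]
        congr 1
        omega
      · intro b _ hb
        rw [if_neg (by omega)]
      · intro h3
        exact absurd (Finset.mem_range.2 (by omega)) h3
    · rw [Finset.sum_eq_zero]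
      · rw [hf]
        omega
      · intro i hi
        rw [Finset.mem_range] at hi
        rw [if_neg (by omega)]
  have hdeg : p.natDegree < 2 * N + 1 := by
    refine lt_of_le_of_lt (Polynomial.natDegree_sum_le_of_forall_le (n := 2 * N) _ _ ?_)
      (Nat.lt_succ_self _)
    intro i hi
    rw [Finset.mem_range] at hi
    exact (Polynomial.natDegree_monomial_le _).trans (by omega)
  have hp0 : p = 0 := by
    refine Polynomial.eq_zero_of_natDegree_lt_card_of_eval_eq_zero p
      (f := fun i => ((u i : Rˣ) : R)) ?_ ?_ (by rwa [Fintype.card_fin])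
    · intro i j hij
      exact hu (Units.ext hij)
    · intro i
      have h3 : ev R (u i) (toLaurent p) = 0 := by
        rw [h1, map_mul, h i, zero_mul]
      unfold ev at h3
      rw [LaurentPolynomial.eval₂_toLaurent] at h3
      rwa [Polynomial.eval, ]
  have h4 : f * T (N : ℤ) = 0 := by
    rw [← h1, hp0, map_zero]
  have h5 : f = f * T (N : ℤ) * T (-(N : ℤ)) := by simp
  rw [h5, h4, zero_mul]

end Pool.Agent.H54.TT
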