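import Pool.Agent.H52.T3.Main

/-!
# Two trees: the product complex

`CTree V`: a tree on `V` with at least two vertices and a proper colouring with two colours. The cells are the vertices and
the edges. The product complex of two trees has the pairs of cells as vertices, two pairs are joined by an edge if one of
them is a proper face of the other one; the triangles are the triples of pairs any two of which are joined by an edge. This
is the barycentric subdivision of the square complex which is the product of the trees.
-/

set_option autoImplicit false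

namespace Pool.Agent.H54.TT

open Pool.Agent.H54.CX Pool.Agent.H98.FJ Pool.Agent.H52.T2

/-- a tree with a proper colouring with two colours and without isolated vertices -/
structure CTree (V : Type) where
  G : SimpleGraph V
  tree : G.IsTree
  col : V → Bool
  alt : ∀ a b, G.Adj a b → col a ≠ col b
  deg : ∀ a, ∃ b, G.Adj a b

/-- the edges, written from the colour `false` to the colour `true` -/
def Ed {V : Type} (S : CTree V) : Type := {p : V × V // S.G.Adj p.1 p.2 ∧ S.col p.1 = false}

/-- the cells: vertices and edges -/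
abbrev Cell {V : Type} (S : CTree V) : Type := V ⊕ Ed S

/-- `x` is a proper face of `y` -/
def Fc {V : Type} (S : CTree V) : Cell S → Cell S → Prop
  | Sum.inl v, Sum.inr e => v = e.1.1 ∨ v = e.1.2
  | _, _ => False

/-- equal or a face -/
def Le {V : Type} (S : CTree V) (x y : Cell S) : Prop := x = y ∨ Fc S x y

/-- the dimension -/
def dm {V : Type} (S : CTree V) : Cell S → ℕ
  | Sum.inl _ => 0
  | Sum.inr _ => 1

/-- the type of a cell: the colour of a vertex, or edge -/
def ty {V : Type} (S : CTree V) : Cell S → Option Bool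
  | Sum.inl v => some (S.col v)
  | Sum.inr _ => none

variable {V V' : Type} (S : CTree V) (T : CTree V')

/-- the pairs of cells -/
abbrev Pr : Type := Cell S × Cell T

/-- a proper face -/
def Lt (x y : Pr S T) : Prop := x ≠ y ∧ Le S x.1 y.1 ∧ Le T x.2 y.2

/-- the kind: codimension -/
def kd (x : Pr S T) : ℕ := 2 - (dm S x.1 + dm T x.2)

/-- the type -/
def tau (x : Pr S T) : Option Bool × Option Bool := (ty S x.1, ty T x.2)

/-- all labels are two: the angles at the vertices of the squares are right angles -/
def mu : Option Bool × Option Bool → ℕ := fun _ => 2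

/-- joined by an edge -/
def PE (x y : Pr S T) : Prop := Lt S T x y ∨ Lt S T y x

theorem dm_le (x : Cell S) : dm S x ≤ 1 := by
  cases x <;> simp [dm]

theorem Le.dm_le {S : CTree V} {x y : Cell S} (h : Le S x y) : dm S x ≤ dm S y := by
  rcases h with rfl | h
  · exact le_rfl
  · cases x <;> cases y <;> simp_all [Fc, dm]

theorem Le.eq_of_dm {S : CTree V} {x y : Cell S} (h : Le S x y) (hd : dm S x = dm S y) : x = y := by
  rcases h with rfl | h
  · rfl
  · cases x <;> cases y <;> simp_all [Fc, dm]

theorem Le.trans {S : CTree V} {x y z : Cell S} (h : Le S x y) (h' : Le S y z) : Le S x z := by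
  rcases h with rfl | h
  · exact h'
  · rcases h' with rfl | h'
    · exact Or.inr h
    · exfalso
      cases x <;> cases y <;> cases z <;> simp_all [Fc]

theorem Lt.kd_lt {S : CTree V} {T : CTree V'} {x y : Pr S T} (h : Lt S T x y) : kd S T y < kd S T x := by
  obtain ⟨hne, h1, h2⟩ := h
  have a1 := h1.dm_le
  have a2 := h2.dm_le
  have b1 := TT.dm_le S y.1
  have b2 := TT.dm_le T y.2
  have hlt : dm S x.1 + dm T x.2 < dm S y.1 + dm T y.2 := by
    rcases Nat.lt_or_ge (dm S x.1 + dm T x.2) (dm S y.1 + dm T y.2) with h | h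
    · exact h
    · exact absurd (Prod.ext (h1.eq_of_dm (by omega)) (h2.eq_of_dm (by omega))) hne
  unfold kd
  omega

theorem PE.kd_ne {S : CTree V} {T : CTree V'} {x y : Pr S T} (h : PE S T x y) : kd S T x ≠ kd S T y := by
  rcases h with h | h
  · exact h.kd_lt.ne'
  · exact h.kd_lt.ne

theorem kd_le (x : Pr S T) : kd S T x ≤ 2 := by
  unfold kd
  omega

theorem L2_two (a b : ℕ) : L2 a b 2 2 = if (a = 0 ∧ b = 2) ∨ (a = 2 ∧ b = 0) then Real.sqrt 2 else 1 := by
  have hs : Real.sin (Real.pi / (2 * (2 : ℕ))) = Real.sqrt 2 / 2 := by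
    rw [show Real.pi / (2 * ((2 : ℕ) : ℝ)) = Real.pi / 4 by push_cast; ring]
    exact Real.sin_pi_div_four
  have hc : Real.cos (Real.pi / (2 * (2 : ℕ))) = Real.sqrt 2 / 2 := by
    rw [show Real.pi / (2 * ((2 : ℕ) : ℝ)) = Real.pi / 4 by push_cast; ring]
    exact Real.cos_pi_div_four
  have h2 : Real.sqrt 2 ≠ 0 := by positivity
  have hLs : Ls 2 = Real.sqrt 2 := by
    unfold Ls
    rw [hs]
    have := Real.mul_self_sqrt (show (0 : ℝ) ≤ 2 by norm_num)
    field_simp
    nlinarith
  have hLc : Lc 2 = 1 := by
    unfold Lc
    rw [hs, hc]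
    field_simp
  unfold L2
  split <;> simp_all

/-- the product complex -/
noncomputable def X : Cpx (Pr S T) where
  Edge := PE S T
  Tri x y z := PE S T x y ∧ PE S T y z ∧ PE S T x z
  len x y := L2 (kd S T x) (kd S T y) 2 2
  ne x y h := by
    rintro rfl
    exact h.kd_ne rfl
  symm x y h := h.symm
  edge x y z h := h.1
  rot x y z h := ⟨h.2.1, h.2.2.symm, h.1.symm⟩
  swap x y z h := ⟨h.1.symm, h.2.2, h.2.1⟩
  len_symm x y h := Pool.Agent.H54.AR2.L2_symm _ _ _ _
  pos x y h := by
    rw [L2_two]
    split <;> positivity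
  lt x y z h := by
    obtain ⟨h1, h2, h3⟩ := h
    have k1 := h1.kd_ne
    have k2 := h2.kd_ne
    have k3 := h3.kd_ne
    have hs : Real.sqrt 2 < 2 := by
      rw [Real.sqrt_lt' (by norm_num)]
      norm_num
    have hs1 : 1 < Real.sqrt 2 := by
      rw [Real.lt_sqrt (by norm_num)]
      norm_num
    rw [L2_two, L2_two, L2_two]
    have a1 := kd_le S T x
    have a2 := kd_le S T y
    have a3 := kd_le S T z
    split_ifs with c1 c2 c3 c4 c5 c6 c7 <;> first
      | linarith
      | (exfalso; omega)

end Pool.Agent.H54.TT
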