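import Pool.Agent.H54.DD.Final
import Pool.Agent.H54.TT.Alg

/-!
# Actions on complexes of dimension two and the Farrell-Jones conjecture for A-theory

Let `C` be a class of groups with the inheritance properties `Inherits` and the extension property `Extension` (preimages
of virtually cyclic subgroups), which contains the groups that act properly and cocompactly on simply connected
two-dimensional Euclidean complexes of nonpositive curvature (`Cat2`). The class of the groups satisfying the
Farrell-Jones conjecture for A-theory with coefficients and finite wreath products is such a class.

(a) Let `G` act on a simply connected simplicial complex `X` of dimension at most two whose edges have length one and whose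
links satisfy the link condition, that is, have girth at least six. The action need not be proper or cocompact, and `X` need
not be locally finite. If for every finitely generated subgroup `H` and every finite set `F` of vertices there is a
homomorphism from `H` to a group of the class which is injective on the stabilisers `H_v`, `v ∈ F`, then `G` is in the
class.

(b) The same holds for actions on the product of two trees: the group acts on both trees, the stabilisers are the
intersections of the stabilisers of a vertex of the first and a vertex of the second tree. It also holds if all these
intersections are finite (nonuniform discrete groups, for example the Kac-Moody groups of rank two over finite fields with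
their twin trees).

(c) If `R` is a commutative domain and `GL₃(R)` is in the class then `GL₃(R[x_i : i ∈ I])` is in the class for every set `I`
of variables.

(d) If `R` is a commutative domain which is finite or has infinitely many units and `GL₂(R)` is in the class then
`GL₂(R[A])` is in the class for every torsion-free abelian group `A`; here `R[A]` is the group ring. For `A = ℤⁿ` this is
the ring of Laurent polynomials in `n` variables.

Proof of (a). `G` is the directed union of its finitely generated subgroups `H`, and `H` is the directed colimit of the
groups of the lifts of `H` to the universal covers of the subcomplexes of finite type (the links of a subcomplex are
subgraphs). These groups have a homomorphism `f` to a group of the class which is injective on all stabilisers. By the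
extension property it suffices to consider the preimages of cyclic groups; if the cyclic group is finite the action is
proper, otherwise one has a group `P` and a homomorphism `h : P → ℤ` which is injective on the stabilisers, and, again by a
colimit, the action of `P` is cocompact. For a suitable `M > 0` let `N` be the subgroup generated by the elements `g` of the
stabilisers with `M ∣ h(g)`. Then short closed paths in the links of `X / N` lift to closed paths in the links of `X`.
The universal cover of `X / N` is constructed level by level (every vertex has at most two arrows to the previous level,
and then they span a triangle, and every edge on one level has exactly one neighbour below). Since `X` is simply connected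
and `N` is generated by elements with fixed vertices, `X / N` is its own universal cover. So `P / N` acts properly and
cocompactly on the simply connected complex `X / N` with links of girth at least six, and `P / N` is in the class. The group
`N` is a directed colimit of groups which act on simply connected complexes with finitely many orbits of triangles; the
levels show that there is always a free pair of an edge and a triangle, and removing such pairs one arrives at an action on
a tree, so `N` is in the class. Finally, `P` has a homomorphism to `P / N × ℤ`: the preimage of a cyclic group acts freely on
`X` or is, up to finite index, contained in `N`. So `P` is in the class.

Proof of (b). A subgroup of finite index preserves colourings of the trees with two colours. The squares, the edges and the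
vertices of the product are the chambers, the hyperedges and the points of a typed complex with all labels equal to two.
For these complexes the levels are constructed with the angles of the triangles.

Proof of (c). `GL₃(R[x])` acts on the building of `GL₃(K)`, where `K` is the field of rational functions over the field of
fractions of `R`, with the valuation `- deg`: the vertices are the lattices up to multiplication by a power of `1 / x`.
The stabiliser of a vertex consists of matrices of bounded degree; these are detected by evaluation at finitely many
points of `R` (by reduction modulo a power of `x` if `R` is finite).

Proof of (d). `GL₂(R[x, 1 / x])` acts on the trees of `GL₂(K)` for the valuations `ord₀` and `- deg`. The valuations of the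
determinant for the two valuations are opposite, so it suffices to consider the kernel `G₁` of this homomorphism to the
integers: with the scalar matrices `xⁿ` it generates a subgroup of index two. The entries of the elements of `G₁` which
stabilise a vertex of either tree have bounded exponents in both directions, so they are detected by the evaluations at
finitely many units of `R`, and there are only finitely many of them if `R` is finite. Now iterate; a torsion-free abelian
group is a directed union of finitely generated free ones.
-/

set_option autoImplicit false

namespace Pool.Agent.H54.TT.Draft

open Pool.Agent.H98.FJ Pool.Agent.H54.CX Pool.Agent.H54.DD

theorem result (C : (G : Type) → [Group G] → Prop) (hC : Inherits C) (hE : Extension C)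
    (hcat : Cat2 C) :
    (∀ (G : Type) [Group G] (V : Type) [MulAction G V] (X : Cpx V), X.SC → X.Link →
      (∀ a b, X.Edge a b → X.len a b = 1) → X.Inv G →
      (∀ H : Subgroup G, H.FG → ∀ F : Finset V, ∃ (Q : Type) (_ : Group Q) (f : H →* Q), C Q ∧
        ∀ v ∈ F, ∀ g : H, (g : G) • v = v → f g = 1 → g = 1) → C G) ∧
    (∀ (G V W : Type) [Group G] [MulAction G V] [MulAction G W] (S : SimpleGraph V)
      (T : SimpleGraph W), S.IsTree → T.IsTree →
      (∀ (g : G) (a b : V), S.Adj a b → S.Adj (g • a) (g • b)) →
      (∀ (g : G) (a b : W), T.Adj a b → T.Adj (g • a) (g • b)) →
      (∀ (v : V) (w : W), {g : G | g • v = v ∧ g • w = w}.Finite) ∨
        (∀ H : Subgroup G, H.FG → ∀ (F : Finset V) (F' : Finset W),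
          ∃ (Q : Type) (_ : Group Q) (f : H →* Q), C Q ∧ ∀ v ∈ F, ∀ w ∈ F', ∀ g : H,
            (g : G) • v = v → (g : G) • w = w → f g = 1 → g = 1) → C G) ∧
    (∀ (R : Type) [CommRing R] [IsDomain R] (I : Type), C (GL (Fin 3) R) →
      C (GL (Fin 3) (MvPolynomial I R))) ∧
    (∀ (R A : Type) [CommRing R] [IsDomain R] [AddCommGroup A] [IsAddTorsionFree A],
      (Finite R ∨ Infinite Rˣ) → C (GL (Fin 2) R) → C (GL (Fin 2) (AddMonoidAlgebra R A))) := by
  refine ⟨?_, ?_, ?_, ?_⟩
  · intro G _ V _ X hsc hl h1 hX hloc
    exact complexes hC hE hcat G V X hsc hl h1 hX hloc
  · intro G V W _ _ _ S T hS hT hSa hTa h
    rcases h with h | h
    · exact Pool.Agent.H54.TT.two_trees_fin hC hcat G V W S T hS hT hSa hTa h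
    · exact Pool.Agent.H54.TT.two_trees hC hE hcat G V W S T hS hT hSa hTa h
  · intro R _ _ I hR
    exact gl_mvPolynomial hC hE hcat R I hR
  · intro R A _ _ _ _ hu hR
    exact Pool.Agent.H54.TT.gl_groupAlgebra hC hE hcat R A hu hR

end Pool.Agent.H54.TT.Draft
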