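import Mathlib

/-!
# A graph with a height function and unique lower neighbours is acyclic
-/

set_option autoImplicit false

namespace Pool.Agent.H54.TT

theorem acyclic_of_height {V : Type*} (G : SimpleGraph V) (ht : V → ℤ)
    (h1 : ∀ a b, G.Adj a b → ht b = ht a + 1 ∨ ht a = ht b + 1)
    (h2 : ∀ a b c, G.Adj a b → G.Adj a c → ht a = ht b + 1 → ht a = ht c + 1 → b = c) :
    G.IsAcyclic := by
  classical
  intro v c hc
  -- a vertex of maximal height
  obtain ⟨x, hx, hmax⟩ := c.support.toFinset.exists_max_image ht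
    ⟨v, by simp⟩
  have hx' : x ∈ c.support := by simpa using hx
  have hc' := hc.rotate hx'
  set d := c.rotate x hx'
  have hsup : ∀ y, y ∈ d.support → ht y ≤ ht x := by
    intro y hy
    refine hmax y ?_
    rw [List.mem_toFinset]
    exact (SimpleGraph.Walk.mem_support_rotate_iff c x hx').1 hy
  have hn : ¬ d.Nil := hc'.not_nil
  have e1 : G.Adj x d.snd := d.adj_snd hn
  have e2 : G.Adj x d.penultimate := (d.adj_penultimate hn).symm
  have s1 : ht d.snd ≤ ht x := hsup _ (d.getVert_mem_support 1)
  have s2 : ht d.penultimate ≤ ht x := hsup _ (d.getVert_mem_support _)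
  refine hc'.snd_ne_penultimate (h2 x _ _ e1 e2 ?_ ?_)
  · rcases h1 _ _ e1 with h | h <;> omega
  · rcases h1 _ _ e2 with h | h <;> omega

end Pool.Agent.H54.TT
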