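import Pool.Agent.H54.TT.TC

/-!
# Parents and depths in a tree
-/

set_option autoImplicit false

namespace Pool.Agent.H54.TT

variable {V : Type}

/-- a root, parents and depths for the cells of a tree -/
structure Rt (S : CTree V) where
  o : Cell S
  par : Cell S → Cell S
  dep : Cell S → ℕ
  dep_o : dep o = 0
  eq_o : ∀ s, dep s = 0 → s = o
  adj : ∀ s, dep s ≠ 0 → Fc S s (par s) ∨ Fc S (par s) s
  dep_par : ∀ s, dep s ≠ 0 → dep s = dep (par s) + 1
  inc : ∀ s t, Fc S s t → (par s = t ∧ dep s = dep t + 1) ∨ (par t = s ∧ dep t = dep s + 1)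

theorem exists_closer (S : CTree V) (o v : V) (h : v ≠ o) :
    ∃ u, S.G.Adj v u ∧ S.G.dist o v = S.G.dist o u + 1 := by
  have hc := S.tree.connected
  obtain ⟨p, hp⟩ := hc.exists_walk_length_eq_dist o v
  have hn : ¬ p.Nil := SimpleGraph.Walk.not_nil_of_ne h.symm
  refine ⟨p.penultimate, (p.adj_penultimate hn).symm, ?_⟩
  rcases S.tree.dist_eq_dist_add_one_of_adj o (p.adj_penultimate hn) with h1 | h1
  · exfalso
    have h2 : S.G.dist o p.penultimate ≤ p.dropLast.length := SimpleGraph.dist_le _
    have h3 : p.dropLast.length + 1 = p.length := SimpleGraph.Walk.length_dropLast_add_one hn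
    omega
  · omega

theorem closer_unique (S : CTree V) (o v u u' : V) (h : S.G.Adj v u) (h' : S.G.Adj v u')
    (h1 : S.G.dist o v = S.G.dist o u + 1) (h2 : S.G.dist o v = S.G.dist o u' + 1) : u = u' := by
  have hc := S.tree.connected
  obtain ⟨p, hp⟩ := hc.exists_walk_length_eq_dist o u
  obtain ⟨p', hp'⟩ := hc.exists_walk_length_eq_dist o u'
  have q1 : (p.concat h.symm).IsPath := SimpleGraph.Walk.isPath_of_length_eq_dist _ (by
    rw [SimpleGraph.Walk.length_concat, hp, h1])
  have q2 : (p'.concat h'.symm).IsPath := SimpleGraph.Walk.isPath_of_length_eq_dist _ (by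
    rw [SimpleGraph.Walk.length_concat, hp', h2])
  have h3 : p.concat h.symm = p'.concat h'.symm := by
    obtain ⟨w, -, hw⟩ := S.tree.existsUnique_path o v
    rw [hw _ q1, hw _ q2]
  have h4 := congrArg SimpleGraph.Walk.penultimate h3
  simpa using h4

open Classical in
theorem exists_rt (S : CTree V) (o : V) : ∃ R : Rt S, R.o = Sum.inl o := by
  let G := S.G
  -- the edge between adjacent vertices
  have hE : ∀ v u, G.Adj v u → ∃ e : Ed S, (v = e.1.1 ∧ u = e.1.2) ∨ (v = e.1.2 ∧ u = e.1.1) := by
    intro v u h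
    rcases hv : S.col v with _ | _
    · exact ⟨⟨(v, u), h, hv⟩, Or.inl ⟨rfl, rfl⟩⟩
    · refine ⟨⟨(u, v), h.symm, ?_⟩, Or.inr ⟨rfl, rfl⟩⟩
      have := S.alt _ _ h
      rw [hv] at this
      cases h : S.col u
      · rfl
      · exact absurd h.symm this
  have hpar : ∀ v : V, v ≠ o → ∃ e : Ed S, ∃ u, G.Adj v u ∧ G.dist o v = G.dist o u + 1 ∧
      ((v = e.1.1 ∧ u = e.1.2) ∨ (v = e.1.2 ∧ u = e.1.1)) := by
    intro v hv
    obtain ⟨u, h1, h2⟩ := exists_closer S o v hv
    obtain ⟨e, he⟩ := hE v u h1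
    exact ⟨e, u, h1, h2, he⟩
  let par : Cell S → Cell S := fun s => match s with
    | Sum.inl v => if h : v = o then Sum.inl o else Sum.inr (hpar v h).choose
    | Sum.inr e => if G.dist o e.1.1 < G.dist o e.1.2 then Sum.inl e.1.1 else Sum.inl e.1.2
  let dep : Cell S → ℕ := fun s => match s with
    | Sum.inl v => 2 * G.dist o v
    | Sum.inr e => G.dist o e.1.1 + G.dist o e.1.2
  have hd : ∀ e : Ed S, G.dist o e.1.1 = G.dist o e.1.2 + 1 ∨ G.dist o e.1.2 = G.dist o e.1.1 + 1 := by
    intro e
    exact S.tree.dist_eq_dist_add_one_of_adj o e.2.1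
  have hd0 : ∀ v, G.dist o v = 0 → v = o := by
    intro v hv
    exact (S.tree.connected.dist_eq_zero_iff.1 hv).symm
  have hpl : ∀ v, v ≠ o → ∃ e : Ed S, ∃ u, par (Sum.inl v) = Sum.inr e ∧ G.Adj v u ∧
      G.dist o v = G.dist o u + 1 ∧ ((v = e.1.1 ∧ u = e.1.2) ∨ (v = e.1.2 ∧ u = e.1.1)) := by
    intro v hv
    refine ⟨(hpar v hv).choose, (hpar v hv).choose_spec.choose, ?_, (hpar v hv).choose_spec.choose_spec⟩
    show (if h : v = o then Sum.inl o else Sum.inr (hpar v h).choose) = _
    rw [dif_neg hv]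
  refine ⟨⟨Sum.inl o, par, dep, by simp [dep], ?_, ?_, ?_, ?_⟩, rfl⟩
  · rintro (v | e) h
    · have : G.dist o v = 0 := by
        have : 2 * G.dist o v = 0 := h
        omega
      rw [hd0 v this]
    · exfalso
      have h2 : G.dist o e.1.1 + G.dist o e.1.2 = 0 := h
      rcases hd e with h1 | h1 <;> omega
  · rintro (v | e) h
    · have hv : v ≠ o := by
        rintro rfl
        apply h
        simp [dep]
      obtain ⟨e, u, h1, h2, h3, h4⟩ := hpl v hv
      left
      rw [h1]
      rcases h4 with h4 | h4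
      · exact Or.inl h4.1
      · exact Or.inr h4.1
    · right
      show Fc S (if G.dist o e.1.1 < G.dist o e.1.2 then Sum.inl e.1.1 else Sum.inl e.1.2) (Sum.inr e)
      split_ifs
      · exact Or.inl rfl
      · exact Or.inr rfl
  · rintro (v | e) h
    · have hv : v ≠ o := by
        rintro rfl
        apply h
        simp [dep]
      obtain ⟨e, u, h1, h2, h3, h4⟩ := hpl v hv
      rw [h1]
      show 2 * G.dist o v = G.dist o e.1.1 + G.dist o e.1.2 + 1
      rcases h4 with h4 | h4
      · rw [← h4.1, ← h4.2]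
        omega
      · rw [← h4.1, ← h4.2]
        omega
    · show G.dist o e.1.1 + G.dist o e.1.2 =
        dep (if G.dist o e.1.1 < G.dist o e.1.2 then Sum.inl e.1.1 else Sum.inl e.1.2) + 1
      rcases hd e with h1 | h1
      · rw [if_neg (by omega)]
        show _ = 2 * G.dist o e.1.2 + 1
        omega
      · rw [if_pos (by omega)]
        show _ = 2 * G.dist o e.1.1 + 1
        omega
  · rintro (v | e') (w | e) hf
    · exact absurd hf id
    · -- `v` is an endpoint of `e`, `u` the other one
      obtain ⟨u, hu, hadj⟩ : ∃ u, ((v = e.1.1 ∧ u = e.1.2) ∨ (v = e.1.2 ∧ u = e.1.1)) ∧ G.Adj v u := by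
        rcases hf with h | h
        · exact ⟨e.1.2, Or.inl ⟨h, rfl⟩, by rw [h]; exact e.2.1⟩
        · exact ⟨e.1.1, Or.inr ⟨h, rfl⟩, by rw [h]; exact e.2.1.symm⟩
      have hsum : G.dist o e.1.1 + G.dist o e.1.2 = G.dist o v + G.dist o u := by
        rcases hu with ⟨h1, h2⟩ | ⟨h1, h2⟩
        · rw [h1, h2]
        · rw [h1, h2, add_comm]
      rcases (show G.dist o v = G.dist o u + 1 ∨ G.dist o u = G.dist o v + 1 from
        S.tree.dist_eq_dist_add_one_of_adj o hadj) with h1 | h1
      · left
        have hv : v ≠ o := by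
          rintro rfl
          rw [SimpleGraph.dist_self] at h1
          omega
        obtain ⟨e₂, u₂, h3, h4, h5, h6⟩ := hpl v hv
        have huu : u = u₂ := closer_unique S o v u u₂ hadj h4 h1 h5
        subst huu
        refine ⟨?_, ?_⟩
        · rw [h3]
          congr 1
          refine Ed.eq_of hadj.ne (a := v) (b := u) ?_ ?_ ?_ ?_
          · exact h6.imp And.left And.left
          · exact (h6.imp And.right And.right).symm
          · exact hu.imp And.left And.left
          · exact (hu.imp And.right And.right).symm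
        · show 2 * G.dist o v = G.dist o e.1.1 + G.dist o e.1.2 + 1
          rw [hsum]
          omega
      · right
        refine ⟨?_, ?_⟩
        · show (if G.dist o e.1.1 < G.dist o e.1.2 then Sum.inl e.1.1 else Sum.inl e.1.2) = Sum.inl v
          rcases hu with ⟨h2, h3⟩ | ⟨h2, h3⟩
          · rw [if_pos (by rw [← h2, ← h3]; omega), h2]
          · rw [if_neg (by rw [← h2, ← h3]; omega), h2]
        · show G.dist o e.1.1 + G.dist o e.1.2 = 2 * G.dist o v + 1
          rw [hsum]
          omega
    · exact absurd hf id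
    · exact absurd hf id

end Pool.Agent.H54.TT
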