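import Pool.Agent.H54.TT.Rt

/-!
# The product complex of two trees is simply connected
-/

set_option autoImplicit false

namespace Pool.Agent.H54.TT

open Pool.Agent.H54.CX Pool.Agent.H98.FJ Pool.Agent.H52.T2

variable {V V' : Type} {S : CTree V} {T : CTree V'}

/-- incident cells -/
def Ic (S : CTree V) (s t : Cell S) : Prop := Fc S s t ∨ Fc S t s

theorem Ic.symm {s t : Cell S} (h : Ic S s t) : Ic S t s := Or.symm h

theorem Fc.ne {s t : Cell S} (h : Fc S s t) : s ≠ t := by
  rintro rfl
  cases s <;> exact h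

theorem edge_l {s s' : Cell S} (h : Ic S s s') (w : Cell T) : PE S T (s, w) (s', w) := by
  rcases h with h | h
  · exact Or.inl ⟨fun h' => h.ne (congrArg Prod.fst h'), Or.inr h, Or.inl rfl⟩
  · exact Or.inr ⟨fun h' => h.ne (congrArg Prod.fst h'), Or.inr h, Or.inl rfl⟩

theorem edge_r {w w' : Cell T} (h : Ic T w w') (s : Cell S) : PE S T (s, w) (s, w') := by
  rcases h with h | h
  · exact Or.inl ⟨fun h' => h.ne (congrArg Prod.snd h'), Or.inl rfl, Or.inr h⟩
  · exact Or.inr ⟨fun h' => h.ne (congrArg Prod.snd h'), Or.inl rfl, Or.inr h⟩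

/-- the class of a point -/
noncomputable abbrev P (S : CTree V) (T : CTree V') (s : Cell S) (w : Cell T) : Cls (X S T) :=
  Cls.pt (X S T) (s, w)

/-- a diagonal edge and the two sides of its triangle -/
theorem diag_lt {s s' : Cell S} {w w' : Cell T} (h : Fc S s s') (h' : Fc T w w') :
    P S T s w * P S T s' w' = P S T s w * P S T s' w * P S T s' w' ∧
    P S T s w * P S T s' w' = P S T s w * P S T s w' * P S T s' w' ∧
    P S T s' w' * P S T s w = P S T s' w' * P S T s' w * P S T s w ∧
    P S T s' w' * P S T s w = P S T s' w' * P S T s w' * P S T s w := by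
  have e1 : PE S T (s, w) (s', w) := edge_l (Or.inl h) w
  have e2 : PE S T (s', w) (s', w') := edge_r (Or.inl h') s'
  have e3 : PE S T (s, w) (s, w') := edge_r (Or.inl h') s
  have e4 : PE S T (s, w') (s', w') := edge_l (Or.inl h) w'
  have e5 : PE S T (s, w) (s', w') :=
    Or.inl ⟨fun h'' => h.ne (congrArg Prod.fst h''), Or.inr h, Or.inr h'⟩
  refine ⟨?_, ?_, ?_, ?_⟩
  · exact (Cls.tri (X := X S T) ⟨e1, e2, e5⟩).symm
  · exact (Cls.tri (X := X S T) ⟨e3, e4, e5⟩).symm
  · exact (Cls.tri (X := X S T) ⟨e2.symm, e1.symm, e5.symm⟩).symm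
  · exact (Cls.tri (X := X S T) ⟨e4.symm, e3.symm, e5.symm⟩).symm

/-- the two ways around a square -/
theorem square {s s' : Cell S} {w w' : Cell T} (h : Ic S s s') (h' : Ic T w w') :
    P S T s w * P S T s' w * P S T s' w' = P S T s w * P S T s w' * P S T s' w' := by
  -- the two mixed orientations
  have mixed : ∀ {s s' : Cell S} {w w' : Cell T}, Fc S s s' → Fc T w w' →
      P S T s' w * P S T s w * P S T s w' = P S T s' w * P S T s' w' * P S T s w' := by
    intro s s' w w' h h'
    have e1 : PE S T (s, w) (s', w) := edge_l (Or.inl h) w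
    have e2 : PE S T (s', w) (s', w') := edge_r (Or.inl h') s'
    have e3 : PE S T (s, w) (s, w') := edge_r (Or.inl h') s
    have e4 : PE S T (s, w') (s', w') := edge_l (Or.inl h) w'
    have e5 : PE S T (s, w) (s', w') :=
      Or.inl ⟨fun h'' => h.ne (congrArg Prod.fst h''), Or.inr h, Or.inr h'⟩
    have a1 : P S T s w * P S T s w' = P S T s w * P S T s' w' * P S T s w' :=
      (Cls.tri (X := X S T) ⟨e5, e4.symm, e3⟩).symm
    have a2 : P S T s' w * P S T s w * P S T s' w' = P S T s' w * P S T s' w' :=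
      Cls.tri (X := X S T) ⟨e1.symm, e5, e2⟩
    calc P S T s' w * P S T s w * P S T s w' = P S T s' w * (P S T s w * P S T s w') := by
          rw [mul_assoc]
      _ = P S T s' w * P S T s w * P S T s' w' * P S T s w' := by
          rw [a1]; simp only [mul_assoc]
      _ = _ := by rw [a2]
  rcases h with h | h <;> rcases h' with h' | h'
  · exact (diag_lt h h').1.symm.trans (diag_lt h h').2.1
  · -- `s < s'`, `w' < w`: read backwards
    have e1 : PE S T (s, w') (s', w') := edge_l (Or.inl h) w'
    have e2 : PE S T (s', w') (s', w) := edge_r (Or.inl h') s'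
    have e3 : PE S T (s, w') (s, w) := edge_r (Or.inl h') s
    have e4 : PE S T (s, w) (s', w) := edge_l (Or.inl h) w
    have e5 : PE S T (s, w') (s', w) :=
      Or.inl ⟨fun h'' => h.ne (congrArg Prod.fst h''), Or.inr h, Or.inr h'⟩
    have a1 : P S T s w * P S T s' w * P S T s w' = P S T s w * P S T s w' :=
      Cls.tri (X := X S T) ⟨e4, e5.symm, e3.symm⟩
    have a2 : P S T s' w * P S T s w' * P S T s' w' = P S T s' w * P S T s' w' :=
      Cls.tri (X := X S T) ⟨e5.symm, e1, e2.symm⟩
    calc P S T s w * P S T s' w * P S T s' w' = P S T s w * (P S T s' w * P S T s' w') := by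
          rw [mul_assoc]
      _ = P S T s w * P S T s' w * P S T s w' * P S T s' w' := by
          rw [← a2]; simp only [mul_assoc]
      _ = _ := by rw [a1]
  · exact mixed h h'
  · exact (diag_lt h h').2.2.2.symm.trans (diag_lt h h').2.2.1 |>.symm |> fun h => by
      rw [← (diag_lt ‹Fc S s' s› ‹Fc T w' w›).2.2.2, ← (diag_lt ‹Fc S s' s› ‹Fc T w' w›).2.2.1]

/-- the geodesic from the root, first factor -/
noncomputable def hor (R : Rt S) (T : CTree V') (w : Cell T) : ℕ → Cell S → Cls (X S T)
  | 0, s => P S T s w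
  | n + 1, s => hor R T w n (R.par s) * P S T s w

/-- the geodesic from the root, second factor -/
noncomputable def ver (S : CTree V) (Q : Rt T) (s : Cell S) : ℕ → Cell T → Cls (X S T)
  | 0, w => P S T s w
  | n + 1, w => ver S Q s n (Q.par w) * P S T s w

theorem hor_mul_pt (R : Rt S) (w : Cell T) (n : ℕ) (s : Cell S) :
    hor R T w n s * P S T s w = hor R T w n s := by
  cases n with
  | zero => exact Cls.stay _
  | succ n =>
    show hor R T w n (R.par s) * P S T s w * P S T s w = _
    rw [mul_assoc, Cls.stay]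
    rfl

theorem ver_mul_pt (Q : Rt T) (s : Cell S) (n : ℕ) (w : Cell T) :
    ver S Q s n w * P S T s w = ver S Q s n w := by
  cases n with
  | zero => exact Cls.stay _
  | succ n =>
    show ver S Q s n (Q.par w) * P S T s w * P S T s w = _
    rw [mul_assoc, Cls.stay]
    rfl

theorem pt_back {a b : Pr S T} (h : PE S T a b) (q : Cls (X S T)) (hq : q * Cls.pt (X S T) a = q) :
    q * Cls.pt (X S T) b * Cls.pt (X S T) a = q := by
  have : q * Cls.pt (X S T) b * Cls.pt (X S T) a =
      q * (Cls.pt (X S T) a * Cls.pt (X S T) b * Cls.pt (X S T) a) := by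
    rw [← mul_assoc, ← mul_assoc, hq]
  rw [this, Cls.back (X := X S T) h, hq]

theorem hor_step (R : Rt S) (w : Cell T) {s s' : Cell S} (h : Ic S s s') :
    hor R T w (R.dep s) s * P S T s' w = hor R T w (R.dep s') s' := by
  have key : (R.par s = s' ∧ R.dep s = R.dep s' + 1) ∨ (R.par s' = s ∧ R.dep s' = R.dep s + 1) := by
    rcases h with h | h
    · exact R.inc _ _ h
    · exact (R.inc _ _ h).symm
  rcases key with ⟨h1, h2⟩ | ⟨h1, h2⟩
  · rw [h2]
    show hor R T w (R.dep s') (R.par s) * P S T s w * P S T s' w = _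
    rw [h1]
    exact pt_back (edge_l h.symm w) _ (hor_mul_pt R w _ _)
  · rw [h2]
    show _ = hor R T w (R.dep s) (R.par s') * P S T s' w
    rw [h1]

theorem ver_step (Q : Rt T) (s : Cell S) {w w' : Cell T} (h : Ic T w w') :
    ver S Q s (Q.dep w) w * P S T s w' = ver S Q s (Q.dep w') w' := by
  have key : (Q.par w = w' ∧ Q.dep w = Q.dep w' + 1) ∨ (Q.par w' = w ∧ Q.dep w' = Q.dep w + 1) := by
    rcases h with h | h
    · exact Q.inc _ _ h
    · exact (Q.inc _ _ h).symm
  rcases key with ⟨h1, h2⟩ | ⟨h1, h2⟩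
  · rw [h2]
    show ver S Q s (Q.dep w') (Q.par w) * P S T s w * P S T s w' = _
    rw [h1]
    exact pt_back (edge_r h.symm s) _ (ver_mul_pt Q s _ _)
  · rw [h2]
    show _ = ver S Q s (Q.dep w) (Q.par w') * P S T s w'
    rw [h1]

/-- a horizontal step at the end of a vertical geodesic can be made at its beginning -/
theorem ver_cross (Q : Rt T) {s s' : Cell S} (h : Ic S s s') (n : ℕ) (w : Cell T)
    (hw : Q.dep w = n) :
    ver S Q s n w * P S T s' w = P S T s Q.o * ver S Q s' n w := by
  induction n generalizing w with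
  | zero =>
    rw [Q.eq_o w hw]
    rfl
  | succ n ih =>
    have h0 : Q.dep w ≠ 0 := by omega
    have h1 := Q.dep_par w h0
    have h2 : Ic T (Q.par w) w := (Q.adj w h0).symm
    have h3 := ih (Q.par w) (by omega)
    show ver S Q s n (Q.par w) * P S T s w * P S T s' w =
      P S T s Q.o * (ver S Q s' n (Q.par w) * P S T s' w)
    calc ver S Q s n (Q.par w) * P S T s w * P S T s' w
        = ver S Q s n (Q.par w) * (P S T s (Q.par w) * P S T s w * P S T s' w) := by
          rw [← mul_assoc, ← mul_assoc, ver_mul_pt]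
      _ = ver S Q s n (Q.par w) * (P S T s (Q.par w) * P S T s' (Q.par w) * P S T s' w) := by
          rw [square h h2]
      _ = ver S Q s n (Q.par w) * P S T s' (Q.par w) * P S T s' w := by
          rw [← mul_assoc, ← mul_assoc, ver_mul_pt]
      _ = _ := by rw [h3, mul_assoc]

/-- the canonical class of the paths from the root to `(s, w)` -/
noncomputable def can (R : Rt S) (Q : Rt T) (x : Pr S T) : Cls (X S T) :=
  hor R T Q.o (R.dep x.1) x.1 * ver S Q x.1 (Q.dep x.2) x.2

theorem can_l (R : Rt S) (Q : Rt T) {s s' : Cell S} (h : Ic S s s') (w : Cell T) :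
    can R Q (s, w) * P S T s' w = can R Q (s', w) := by
  show hor R T Q.o (R.dep s) s * ver S Q s (Q.dep w) w * P S T s' w =
    hor R T Q.o (R.dep s') s' * ver S Q s' (Q.dep w) w
  rw [mul_assoc, ver_cross Q h _ w rfl, ← mul_assoc, hor_mul_pt]
  -- the geodesic `ver` begins at the root
  have hv : ∀ n (w : Cell T), Q.dep w = n → P S T s' Q.o * ver S Q s' n w = ver S Q s' n w := by
    intro n
    induction n with
    | zero =>
      intro w hw
      rw [Q.eq_o w hw]
      exact Cls.stay _
    | succ n ih =>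
      intro w hw
      have h1 := Q.dep_par w (by omega)
      show P S T s' Q.o * (ver S Q s' n (Q.par w) * P S T s' w) = _
      rw [← mul_assoc, ih _ (by omega)]
      rfl
  rw [← hv _ w rfl, ← mul_assoc, hor_step R Q.o h, hv _ w rfl]

theorem can_r (R : Rt S) (Q : Rt T) (s : Cell S) {w w' : Cell T} (h : Ic T w w') :
    can R Q (s, w) * P S T s w' = can R Q (s, w') := by
  show hor R T Q.o (R.dep s) s * ver S Q s (Q.dep w) w * P S T s w' = _
  rw [mul_assoc, ver_step Q s h]
  rfl

theorem can_mul_pt (R : Rt S) (Q : Rt T) (x : Pr S T) :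
    can R Q x * Cls.pt (X S T) x = can R Q x := by
  obtain ⟨s, w⟩ := x
  show hor R T Q.o (R.dep s) s * ver S Q s (Q.dep w) w * P S T s w = _
  rw [mul_assoc, ver_mul_pt]
  rfl

theorem can_step (R : Rt S) (Q : Rt T) {x y : Pr S T} (h : (X S T).Near x y) :
    can R Q x * Cls.pt (X S T) y = can R Q y := by
  obtain ⟨s, w⟩ := x
  obtain ⟨s', w'⟩ := y
  rcases h with h | h
  · obtain ⟨rfl, rfl⟩ := Prod.mk.inj h
    exact can_mul_pt R Q _
  · rcases h with ⟨h0, h1, h2⟩ | ⟨h0, h1, h2⟩
    · rcases h1 with h1 | h1 <;> rcases h2 with h2 | h2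
      · exact absurd (Prod.ext h1 h2) h0
      · simp only at h1 h2
        subst h1
        exact can_r R Q s (Or.inl h2)
      · simp only at h1 h2
        subst h2
        exact can_l R Q (Or.inl h1) w
      · simp only at h1 h2
        rw [← can_mul_pt, mul_assoc]
        show can R Q (s, w) * (P S T s w * P S T s' w') = _
        rw [(diag_lt h1 h2).1, ← mul_assoc, ← mul_assoc, can_mul_pt, can_l R Q (Or.inl h1),
          can_r R Q s' (Or.inl h2)]
    · rcases h1 with h1 | h1 <;> rcases h2 with h2 | h2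
      · exact absurd (Prod.ext h1 h2) h0
      · simp only at h1 h2
        subst h1
        exact can_r R Q _ (Or.inr h2)
      · simp only at h1 h2
        subst h2
        exact can_l R Q (Or.inr h1) _
      · simp only at h1 h2
        rw [← can_mul_pt, mul_assoc]
        show can R Q (s, w) * (P S T s w * P S T s' w') = _
        rw [(diag_lt h1 h2).2.2.1, ← mul_assoc, ← mul_assoc, can_mul_pt, can_r R Q s (Or.inr h2),
          can_l R Q (Or.inr h1)]

theorem can_path (R : Rt S) (Q : Rt T) {x y : Pr S T} {q : Cls (X S T)} (h : PC (X S T) x y q) :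
    can R Q x * q = can R Q y := by
  induction h with
  | base => exact can_mul_pt R Q x
  | step h1 h2 ih => rw [← mul_assoc, ih, can_step R Q h2]

/-- the canonical class is the class of a path -/
theorem exists_path (R : Rt S) (Q : Rt T) (x : Pr S T) :
    ∃ q, PC (X S T) (R.o, Q.o) x q := by
  obtain ⟨s, w⟩ := x
  have h1 : ∀ n (s : Cell S), R.dep s = n → ∃ q, PC (X S T) (R.o, Q.o) (s, Q.o) q := by
    intro n
    induction n with
    | zero =>
      intro s hs
      rw [R.eq_o s hs]
      exact ⟨_, PC.base⟩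
    | succ n ih =>
      intro s hs
      have h0 : R.dep s ≠ 0 := by omega
      have h1 := R.dep_par s h0
      obtain ⟨q, hq⟩ := ih (R.par s) (by omega)
      exact ⟨_, hq.step (Or.inr (edge_l (R.adj s h0).symm Q.o))⟩
  have h2 : ∀ n (w : Cell T), Q.dep w = n → ∃ q, PC (X S T) (s, Q.o) (s, w) q := by
    intro n
    induction n with
    | zero =>
      intro w hw
      rw [Q.eq_o w hw]
      exact ⟨_, PC.base⟩
    | succ n ih =>
      intro w hw
      have h0 : Q.dep w ≠ 0 := by omega
      have h1 := Q.dep_par w h0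
      obtain ⟨q, hq⟩ := ih (Q.par w) (by omega)
      exact ⟨_, hq.step (Or.inr (edge_r (Q.adj w h0).symm s))⟩
  obtain ⟨q, hq⟩ := h1 _ s rfl
  obtain ⟨r, hr⟩ := h2 _ w rfl
  exact ⟨_, hq.trans hr⟩

theorem sc (S : CTree V) (T : CTree V') : (X S T).SC := by
  obtain ⟨o⟩ := S.tree.connected.nonempty
  obtain ⟨o'⟩ := T.tree.connected.nonempty
  obtain ⟨R, -⟩ := exists_rt S o
  obtain ⟨Q, -⟩ := exists_rt T o'
  rw [sc_iff]
  refine ⟨⟨(R.o, Q.o)⟩, ?_, ?_⟩
  · intro a b
    obtain ⟨q, hq⟩ := exists_path R Q a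
    obtain ⟨q', hq'⟩ := exists_path R Q b
    obtain ⟨r, hr, -⟩ := hq.exists_rev
    exact ⟨_, hr.trans hq'⟩
  · intro a q hq
    obtain ⟨p, hp⟩ := exists_path R Q a
    obtain ⟨r, hr, h1, h2⟩ := hp.exists_rev
    -- the canonical class of the root
    have h0 : can R Q (R.o, Q.o) = Cls.pt (X S T) (R.o, Q.o) := by
      show hor R T Q.o (R.dep R.o) R.o * ver S Q R.o (Q.dep Q.o) Q.o = _
      rw [R.dep_o, Q.dep_o]
      exact Cls.stay _
    have h3 : can R Q a = p := by
      rw [← can_path R Q hp, h0]
      exact hp.pt_mul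
    have h4 : p * q = p := by
      rw [← h3]
      exact can_path R Q hq
    calc q = Cls.pt (X S T) a * q := hq.pt_mul.symm
      _ = r * (p * q) := by rw [← h2, mul_assoc]
      _ = Cls.pt (X S T) a := by rw [h4, h2]

end Pool.Agent.H54.TT
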