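import Pool.Agent.H54.TT.Defs

/-!
# The product complex of two trees is a typed complex
-/

set_option autoImplicit false

namespace Pool.Agent.H54.TT

open Pool.Agent.H54.CX Pool.Agent.H98.FJ Pool.Agent.H52.T2

variable {V V' : Type} {S : CTree V} {T : CTree V'}

theorem col_snd (S : CTree V) (e : Ed S) : S.col e.1.2 = true := by
  have h := S.alt _ _ e.2.1
  rw [e.2.2] at h
  cases h2 : S.col e.1.2
  · exact absurd h2.symm h
  · rfl

theorem Ed.ext' {e e' : Ed S} (h1 : e.1.1 = e'.1.1) (h2 : e.1.2 = e'.1.2) : e = e' :=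
  Subtype.ext (Prod.ext h1 h2)

theorem fst_ne_snd (e : Ed S) : e.1.1 ≠ e.1.2 := e.2.1.ne

/-- two different vertices are on at most one edge -/
theorem Ed.eq_of {e e' : Ed S} {a b : V} (hab : a ≠ b) (h1 : a = e.1.1 ∨ a = e.1.2)
    (h2 : b = e.1.1 ∨ b = e.1.2) (h3 : a = e'.1.1 ∨ a = e'.1.2) (h4 : b = e'.1.1 ∨ b = e'.1.2) :
    e = e' := by
  have c1 := e.2.2
  have c2 := col_snd S e
  have c3 := e'.2.2
  have c4 := col_snd S e'
  have key : ∀ {x : V} (f f' : Ed S), (x = f.1.1 ∨ x = f.1.2) → (x = f'.1.1 ∨ x = f'.1.2) →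
      (x = f.1.1 ∧ x = f'.1.1) ∨ (x = f.1.2 ∧ x = f'.1.2) := by
    rintro x f f' (h | h) (h' | h')
    · exact Or.inl ⟨h, h'⟩
    · exfalso
      have := f.2.2
      rw [← h, h', col_snd] at this
      exact Bool.noConfusion this
    · exfalso
      have := f'.2.2
      rw [← h', h, col_snd] at this
      exact Bool.noConfusion this
    · exact Or.inr ⟨h, h'⟩
  rcases key e e' h1 h3 with ⟨x1, x2⟩ | ⟨x1, x2⟩ <;> rcases key e e' h2 h4 with ⟨y1, y2⟩ | ⟨y1, y2⟩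
  · exact absurd (x1.trans y1.symm) hab
  · exact Ed.ext' (x1.symm.trans x2) (y1.symm.trans y2)
  · exact Ed.ext' (y1.symm.trans y2) (x1.symm.trans x2)
  · exact absurd (x1.trans y1.symm) hab

theorem PE.lt {x y : Pr S T} (h : PE S T x y) (hk : kd S T y < kd S T x) : Lt S T x y := by
  rcases h with h | h
  · exact h
  · exact absurd h.kd_lt (by omega)

theorem Lt.trans' {x y z : Pr S T} (h : Lt S T x y) (h' : Lt S T y z) : Lt S T x z := by
  refine ⟨?_, h.2.1.trans h'.2.1, h.2.2.trans h'.2.2⟩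
  rintro rfl
  exact absurd (h.kd_lt.trans h'.kd_lt) (lt_irrefl _)

theorem kd0 {x : Pr S T} (h : kd S T x = 0) : ∃ e f, x = (Sum.inr e, Sum.inr f) := by
  obtain ⟨a, b⟩ := x
  cases a <;> cases b <;> simp_all [kd, dm]

theorem kd1 {x : Pr S T} (h : kd S T x = 1) :
    (∃ v f, x = (Sum.inl v, Sum.inr f)) ∨ ∃ e w, x = (Sum.inr e, Sum.inl w) := by
  obtain ⟨a, b⟩ := x
  cases a <;> cases b <;> simp_all [kd, dm]

theorem kd2 {x : Pr S T} (h : kd S T x = 2) : ∃ v w, x = (Sum.inl v, Sum.inl w) := by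
  obtain ⟨a, b⟩ := x
  cases a <;> cases b <;> simp_all [kd, dm]

theorem le_ll {a b : V} : Le S (Sum.inl a) (Sum.inl b) ↔ a = b := by simp [Le, Fc]
theorem le_rr {a b : Ed S} : Le S (Sum.inr a) (Sum.inr b) ↔ a = b := by simp [Le, Fc]
theorem le_lr {a : V} {e : Ed S} : Le S (Sum.inl a) (Sum.inr e) ↔ a = e.1.1 ∨ a = e.1.2 := by
  simp [Le, Fc]
theorem le_rl {a : V} {e : Ed S} : ¬ Le S (Sum.inr e) (Sum.inl a) := by simp [Le, Fc]

theorem exists_ed (S : CTree V) (v : V) : ∃ e : Ed S, v = e.1.1 ∨ v = e.1.2 := by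
  obtain ⟨b, hb⟩ := S.deg v
  rcases hv : S.col v with _ | _
  · exact ⟨⟨(v, b), hb, hv⟩, Or.inl rfl⟩
  · refine ⟨⟨(b, v), hb.symm, ?_⟩, Or.inr rfl⟩
    have := S.alt _ _ hb
    rw [hv] at this
    cases h : S.col b
    · rfl
    · exact absurd h.symm this

/-- the two hyperedges of the chamber `(e, f)` at the point `(v, w)` -/
theorem hyper_cases {e : Ed S} {f : Ed T} {v : V} {w : V'} {x : Pr S T} (hx : kd S T x = 1)
    (h1 : Lt S T (Sum.inl v, Sum.inl w) x) (h2 : Lt S T x (Sum.inr e, Sum.inr f)) :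
    x = (Sum.inl v, Sum.inr f) ∨ x = (Sum.inr e, Sum.inl w) := by
  rcases kd1 hx with ⟨a, f', rfl⟩ | ⟨e', b, rfl⟩
  · obtain ⟨-, h3, h4⟩ := h1
    obtain ⟨-, h5, h6⟩ := h2
    rw [le_ll] at h3
    rw [le_rr] at h6
    subst h3 h6
    exact Or.inl rfl
  · obtain ⟨-, h3, h4⟩ := h1
    obtain ⟨-, h5, h6⟩ := h2
    rw [le_ll] at h4
    rw [le_rr] at h5
    subst h4 h5
    exact Or.inr rfl

theorem T3.lts {g e p : Pr S T} (h : T3 (X S T) (kd S T) g e p) :
    Lt S T e g ∧ Lt S T p e ∧ Lt S T p g := by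
  obtain ⟨h0, h1, h2, h3, h4, h5⟩ := h
  exact ⟨PE.lt (Or.symm h3) (by omega), PE.lt (Or.symm h4) (by omega), PE.lt (Or.symm h5) (by omega)⟩

/-- the direction of a hyperedge: is the first factor a vertex? -/
def dir (x : Pr S T) : Bool := x.1.isLeft

theorem eq_of_dir {g p : Pr S T} {x y : Pr S T} (hx : T3 (X S T) (kd S T) g x p)
    (hy : T3 (X S T) (kd S T) g y p) (h : dir x = dir y) : x = y := by
  obtain ⟨e, f, rfl⟩ := kd0 hx.1
  obtain ⟨v, w, rfl⟩ := kd2 hx.2.2.1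
  obtain ⟨a1, a2, -⟩ := T3.lts hx
  obtain ⟨b1, b2, -⟩ := T3.lts hy
  rcases hyper_cases hx.2.1 a2 a1 with rfl | rfl <;> rcases hyper_cases hy.2.1 b2 b1 with rfl | rfl
  · rfl
  · simp [dir] at h
  · simp [dir] at h
  · rfl

/-- the chamber is determined by two different hyperedges at a point -/
theorem chamber_eq {g g' x y p : Pr S T} (h1 : T3 (X S T) (kd S T) g x p)
    (h2 : T3 (X S T) (kd S T) g y p) (h3 : T3 (X S T) (kd S T) g' x p)
    (h4 : T3 (X S T) (kd S T) g' y p) (hne : x ≠ y) : g = g' := by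
  obtain ⟨e, f, rfl⟩ := kd0 h1.1
  obtain ⟨e', f', rfl⟩ := kd0 h3.1
  obtain ⟨v, w, rfl⟩ := kd2 h1.2.2.1
  obtain ⟨a1, a2, -⟩ := T3.lts h1
  obtain ⟨b1, b2, -⟩ := T3.lts h2
  obtain ⟨c1, c2, -⟩ := T3.lts h3
  obtain ⟨d1, d2, -⟩ := T3.lts h4
  rcases hyper_cases h1.2.1 a2 a1 with hx | hx <;> rcases hyper_cases h2.2.1 b2 b1 with hy | hy
  · exact absurd (hx.trans hy.symm) hne
  · rcases hyper_cases h3.2.1 c2 c1 with hx' | hx' <;> rcases hyper_cases h4.2.1 d2 d1 with hy' | hy'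
    · exact absurd (hx'.trans hy'.symm) hne
    · rw [hx] at hx'
      rw [hy] at hy'
      simp only [Prod.mk.injEq, Sum.inr.injEq, true_and, and_true] at hx' hy'
      subst hx' hy'
      rfl
    · rw [hx] at hx'
      simp at hx'
    · exact absurd (hx'.trans hy'.symm) hne
  · rcases hyper_cases h3.2.1 c2 c1 with hx' | hx' <;> rcases hyper_cases h4.2.1 d2 d1 with hy' | hy'
    · exact absurd (hx'.trans hy'.symm) hne
    · rw [hx] at hx'
      simp at hx'
    · rw [hx] at hx'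
      rw [hy] at hy'
      simp only [Prod.mk.injEq, Sum.inr.injEq, true_and, and_true] at hx' hy'
      subst hx' hy'
      rfl
    · exact absurd (hx'.trans hy'.symm) hne
  · exact absurd (hx.trans hy.symm) hne

/-- the last hyperedge and the last chamber of a gallery -/
theorem Gy.last {p : Pr S T} {n : ℕ} {f e g g' : Pr S T} (h : Gy (X S T) (kd S T) p n f e g g') :
    1 ≤ n ∧ T3 (X S T) (kd S T) g f p ∧ T3 (X S T) (kd S T) g' e p := by
  induction h with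
  | one e g g' h1 h2 _ => exact ⟨le_rfl, h1, h2⟩
  | step n f e g g' e' g'' _ _ _ h3 _ ih => exact ⟨Nat.le_succ_of_le ih.1, ih.2.1, h3⟩

/-- directions alternate along a gallery -/
theorem Gy.dir {p : Pr S T} {n : ℕ} {f e g g' : Pr S T} (h : Gy (X S T) (kd S T) p n f e g g') :
    (TT.dir e = TT.dir f) ↔ n % 2 = 1 := by
  induction h with
  | one e g g' h1 h2 _ => simp
  | step n f e g g' e' g'' h0 h1 h2 h3 _ ih =>
    have h4 : TT.dir e' ≠ TT.dir e := by
      intro h5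
      exact h1 (eq_of_dir h2 (Gy.last h0).2.2 h5)
    constructor
    · intro h5
      by_contra h6
      have h7 : n % 2 = 1 := by omega
      exact h4 (h5.trans (ih.2 h7).symm)
    · intro h5
      have h7 : ¬ n % 2 = 1 := by omega
      have h8 : TT.dir e ≠ TT.dir f := fun h9 => h7 (ih.1 h9)
      revert h4 h8
      cases TT.dir e <;> cases TT.dir f <;> cases TT.dir e' <;> simp

theorem gir {p : Pr S T} {n : ℕ} {f e g : Pr S T} (h : Gy (X S T) (kd S T) p n f e g g)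
    (hne : f ≠ e) : 4 ≤ n := by
  have h1 := Gy.last h
  have hd : TT.dir e ≠ TT.dir f := fun h5 => hne (eq_of_dir h1.2.2 h1.2.1 h5).symm
  have hpar : ¬ n % 2 = 1 := fun h5 => hd ((Gy.dir h).2 h5)
  rcases Nat.lt_or_ge n 4 with hn | hn
  · have h2 : n = 2 := by omega
    exfalso
    cases h with
    | one _ _ _ => omega
    | step m _ e₁ _ g₁ _ _ h3 h4 h5 h6 h7 =>
      have hm : m = 1 := by omega
      subst hm
      cases h3 with
      | one _ _ _ a1 a2 a3 =>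
        exact a3 (chamber_eq h1.2.1 h1.2.2 a2 h5 hne)
      | step k _ _ _ _ _ _ h8 _ _ _ _ => 
        have := (Gy.last h8).1
        omega
  · exact hn

theorem tc (S : CTree V) (T : CTree V') : TC2 (X S T) (kd S T) (tau S T) mu where
  kd_le := kd_le S T
  kd_ne x y h := PE.kd_ne h
  kd_τ x y h := by
    obtain ⟨a, b⟩ := x
    obtain ⟨a', b'⟩ := y
    cases a <;> cases b <;> cases a' <;> cases b' <;> simp_all [tau, ty, kd, dm]
  len x y h := rfl
  fill g e p h0 h1 h2 h3 h4 := by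
    have a1 : Lt S T e g := (PE.lt (Or.symm h3) (by omega))
    have a2 : Lt S T p e := (PE.lt (Or.symm h4) (by omega))
    exact ⟨h3, h4, Or.inr (a2.trans' a1)⟩
  cell e p h1 h2 h3 := by
    rcases kd1 h1 with ⟨v, f, rfl⟩ | ⟨e, w, rfl⟩
    · obtain ⟨e, he⟩ := exists_ed S v
      refine ⟨(Sum.inr e, Sum.inr f), by simp [kd, dm], Or.inr ⟨by simp, le_lr.2 he, Or.inl rfl⟩⟩
    · obtain ⟨f, hf⟩ := exists_ed T w
      refine ⟨(Sum.inr e, Sum.inr f), by simp [kd, dm], Or.inr ⟨by simp, Or.inl rfl, le_lr.2 hf⟩⟩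
  inj g x y hg hx hy hxy := by
    obtain ⟨e, f, rfl⟩ := kd0 hg
    have a1 : Lt S T x (Sum.inr e, Sum.inr f) := PE.lt (Or.symm hx) (by
      have := PE.kd_ne hx
      omega)
    have a2 : Lt S T y (Sum.inr e, Sum.inr f) := PE.lt (Or.symm hy) (by
      have := PE.kd_ne hy
      omega)
    have key : ∀ {W : Type} (R : CTree W) (e : Ed R) (a b : Cell R), Le R a (Sum.inr e) →
        Le R b (Sum.inr e) → ty R a = ty R b → a = b := by
      intro W R e a b ha hb hab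
      rcases a with a | a <;> rcases b with b | b
      · rw [le_lr] at ha hb
        simp only [ty, Option.some.injEq] at hab
        rcases ha with rfl | rfl <;> rcases hb with rfl | rfl
        · rfl
        · rw [e.2.2, col_snd] at hab
          exact Bool.noConfusion hab
        · rw [e.2.2, col_snd] at hab
          exact Bool.noConfusion hab
        · rfl
      · simp [ty] at hab
      · simp [ty] at hab
      · rw [le_rr] at ha hb
        rw [ha, hb]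
    have h1 := congrArg Prod.fst hxy
    have h2 := congrArg Prod.snd hxy
    exact Prod.ext (key S e _ _ a1.2.1 a2.2.1 h1) (key T f _ _ a1.2.2 a2.2.2 h2)
  two g p hg hp hgp := by
    obtain ⟨e, f, rfl⟩ := kd0 hg
    obtain ⟨v, w, rfl⟩ := kd2 hp
    obtain ⟨-, h3, h4⟩ := PE.lt (Or.symm hgp) (by omega)
    have h3' := le_lr.1 h3
    have h4' := le_lr.1 h4
    have A1 : Lt S T (Sum.inl v, Sum.inr f) (Sum.inr e, Sum.inr f) := ⟨by simp, h3, Or.inl rfl⟩
    have A2 : Lt S T (Sum.inl v, Sum.inl w) (Sum.inl v, Sum.inr f) := ⟨by simp, Or.inl rfl, h4⟩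
    have B1 : Lt S T (Sum.inr e, Sum.inl w) (Sum.inr e, Sum.inr f) := ⟨by simp, Or.inl rfl, h4⟩
    have B2 : Lt S T (Sum.inl v, Sum.inl w) (Sum.inr e, Sum.inl w) := ⟨by simp, h3, Or.inl rfl⟩
    refine ⟨(Sum.inl v, Sum.inr f), (Sum.inr e, Sum.inl w), by simp, by simp [kd, dm],
      by simp [kd, dm], ⟨Or.inr A1, Or.inr A2, hgp⟩, ⟨Or.inr B1, Or.inr B2, hgp⟩, ?_⟩
    rintro x ⟨h5, h6, -⟩
    have k1 := PE.kd_ne h5
    have k2 := PE.kd_ne h6
    have k3 := kd_le S T x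
    have hx : kd S T x = 1 := by omega
    exact hyper_cases hx (PE.lt (Or.symm h6) (by omega)) (PE.lt (Or.symm h5) (by omega))
  pts g e hg he hge := by
    obtain ⟨a, b, rfl⟩ := kd0 hg
    rcases kd1 he with ⟨v, f, rfl⟩ | ⟨e, w, rfl⟩
    · have h1 : Lt S T (Sum.inl v, Sum.inr f) (Sum.inr a, Sum.inr b) := PE.lt (Or.symm hge) (by omega)
      have h2 : ∀ z, (z = f.1.1 ∨ z = f.1.2) → Lt S T (Sum.inl v, Sum.inl z) (Sum.inl v, Sum.inr f) :=
        fun z hz => ⟨by simp, Or.inl rfl, le_lr.2 hz⟩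
      refine ⟨(Sum.inl v, Sum.inl f.1.1), (Sum.inl v, Sum.inl f.1.2), ?_, by simp [kd, dm],
        by simp [kd, dm], ⟨hge, Or.inr (h2 _ (Or.inl rfl)), Or.inr ((h2 _ (Or.inl rfl)).trans' h1)⟩,
        ⟨hge, Or.inr (h2 _ (Or.inr rfl)), Or.inr ((h2 _ (Or.inr rfl)).trans' h1)⟩⟩
      simpa using fst_ne_snd f
    · have h1 : Lt S T (Sum.inr e, Sum.inl w) (Sum.inr a, Sum.inr b) := PE.lt (Or.symm hge) (by omega)
      have h2 : ∀ z, (z = e.1.1 ∨ z = e.1.2) → Lt S T (Sum.inl z, Sum.inl w) (Sum.inr e, Sum.inl w) :=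
        fun z hz => ⟨by simp, le_lr.2 hz, Or.inl rfl⟩
      refine ⟨(Sum.inl e.1.1, Sum.inl w), (Sum.inl e.1.2, Sum.inl w), ?_, by simp [kd, dm],
        by simp [kd, dm], ⟨hge, Or.inr (h2 _ (Or.inl rfl)), Or.inr ((h2 _ (Or.inl rfl)).trans' h1)⟩,
        ⟨hge, Or.inr (h2 _ (Or.inr rfl)), Or.inr ((h2 _ (Or.inr rfl)).trans' h1)⟩⟩
      simpa using fst_ne_snd e
  lg g e e' p q hg he he' hp hq hne h1 h2 h3 h4 := by
    obtain ⟨a, b, rfl⟩ := kd0 hg
    obtain ⟨v, w, rfl⟩ := kd2 hp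
    obtain ⟨v', w', rfl⟩ := kd2 hq
    have t1 := T3.lts (g := _) ⟨hg, he, hp, h1⟩
    have t2 := T3.lts (g := _) ⟨hg, he', hp, h2⟩
    have t3 := T3.lts (g := _) ⟨hg, he, hq, h3⟩
    have t4 := T3.lts (g := _) ⟨hg, he', hq, h4⟩
    rcases hyper_cases he t1.2.1 t1.1 with rfl | rfl <;>
      rcases hyper_cases he' t2.2.1 t2.1 with rfl | rfl
    · exact absurd rfl hne
    · have h5 := le_ll.1 t3.2.1.2.1
      have h6 := le_ll.1 t4.2.1.2.2
      rw [h5, h6]
    · have h5 := le_ll.1 t3.2.1.2.2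
      have h6 := le_ll.1 t4.2.1.2.1
      rw [h5, h6]
    · exact absurd rfl hne
  mu p hp := le_rfl
  k3 g e₁ e₂ e₃ p₁ p₂ p₃ h1 h2 h3 h4 h5 h6 n1 n2 n3 := by
    exfalso
    have d1 : dir e₁ ≠ dir e₂ := fun h => n1 (eq_of_dir h1 h2 h)
    have d2 : dir e₂ ≠ dir e₃ := fun h => n2 (eq_of_dir h3 h4 h)
    have d3 : dir e₃ ≠ dir e₁ := fun h => n3 (eq_of_dir h5 h6 h)
    revert d1 d2 d3
    cases dir e₁ <;> cases dir e₂ <;> cases dir e₃ <;> simp
  gir p n f e g h hne := gir h hne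

end Pool.Agent.H54.TT
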