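import Pool.Agent.H54.TT.Val

/-!
# The graph of a discrete valuation is a tree

Every vertex is the coset of a matrix `ut x a = (x, a; 0, 1)`, the valuation of `x` (the height) is determined by the
vertex, the heights of adjacent vertices differ by one, and a vertex has exactly one lower neighbour.
-/

set_option autoImplicit false

namespace Pool.Agent.H54.TT

variable {K : Type} [Field K] {v : K → ℤ} (hv : IsDV v)

/-- an invertible matrix with bottom row `(0, 1)` -/
def ut (x a : K) (hx : x ≠ 0) : GL (Fin 2) K where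
  val := !![x, a; 0, 1]
  inv := !![x⁻¹, -(x⁻¹ * a); 0, 1]
  val_inv := by
    ext i j
    fin_cases i <;> fin_cases j <;> simp [Matrix.mul_apply, Fin.sum_univ_two, hx]
  inv_val := by
    ext i j
    fin_cases i <;> fin_cases j <;> simp [Matrix.mul_apply, Fin.sum_univ_two, hx]

theorem ut_mul (x a y b : K) (hx : x ≠ 0) (hy : y ≠ 0) :
    ut x a hx * ut y b hy = ut (x * y) (x * b + a) (mul_ne_zero hx hy) := by
  apply Units.ext
  ext i j
  fin_cases i <;> fin_cases j <;> simp [ut, Matrix.mul_apply, Fin.sum_univ_two]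

theorem ut_inv (x a : K) (hx : x ≠ 0) :
    (ut x a hx)⁻¹ = ut x⁻¹ (-(x⁻¹ * a)) (inv_ne_zero hx) := by
  apply Units.ext
  rfl

theorem vd_ut (x a : K) (hx : x ≠ 0) : vd v (ut x a hx) = v x := by
  unfold vd
  congr 1
  show (ut x a hx).val.det = x
  simp [ut, Matrix.det_fin_two]

theorem geM_ut {n : ℤ} (x a : K) (hx : x ≠ 0) :
    GeM v n (ut x a hx).val ↔ Ge v n x ∧ Ge v n a ∧ Ge v n 1 := by
  constructor
  · intro h
    exact ⟨h 0 0, h 0 1, h 1 1⟩
  · rintro ⟨h1, h2, h3⟩ i j
    fin_cases i <;> fin_cases j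
    · exact h1
    · exact h2
    · exact fun h => absurd rfl h
    · exact h3

include hv in
theorem ge_one_iff {n : ℤ} : Ge v n 1 ↔ n ≤ 0 := by
  unfold Ge
  rw [hv.one]
  simp

include hv in
theorem ds_ut {j : ℤ} (x a y b : K) (hx : x ≠ 0) (hy : y ≠ 0) :
    Ds v j ((ut x a hx)⁻¹ * ut y b hy) ↔
      ∃ n, n ≤ 0 ∧ -j ≤ n ∧ v y - v x = 2 * n + j ∧ Ge v (n + v x) (b - a) := by
  rw [ut_inv, ut_mul]
  have hxi : v x⁻¹ = - v x := hv.inv hx
  have hxy : v (x⁻¹ * y) = v y - v x := by
    rw [hv.mul _ _ (inv_ne_zero hx) hy, hxi]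
    ring
  have hab : ∀ n, Ge v n (x⁻¹ * b + -(x⁻¹ * a)) ↔ Ge v (n + v x) (b - a) := by
    intro n
    have h1 : x⁻¹ * b + -(x⁻¹ * a) = x⁻¹ * (b - a) := by ring
    rw [h1]
    by_cases h : b - a = 0
    · rw [h, mul_zero]
      exact ⟨fun _ h => absurd rfl h, fun _ h => absurd rfl h⟩
    · constructor
      · intro h2 _
        have := h2 (mul_ne_zero (inv_ne_zero hx) h)
        rw [hv.mul _ _ (inv_ne_zero hx) h, hxi] at this
        omega
      · intro h2 _
        have := h2 h
        rw [hv.mul _ _ (inv_ne_zero hx) h, hxi]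
        omega
  constructor
  · rintro ⟨n, h1, h2⟩
    rw [geM_ut] at h1
    rw [vd_ut, hxy] at h2
    have h3 := h1.1 (mul_ne_zero (inv_ne_zero hx) hy)
    rw [hxy, h2] at h3
    exact ⟨n, (ge_one_iff hv).1 h1.2.2, by omega, h2, (hab n).1 h1.2.1⟩
  · rintro ⟨n, h1, h0, h2, h3⟩
    refine ⟨n, ?_, ?_⟩
    · rw [geM_ut]
      refine ⟨?_, (hab n).2 h3, (ge_one_iff hv).2 h1⟩
      intro _
      rw [hxy, h2]
      omega
    · rw [vd_ut, hxy, h2]

include hv in
/-- Iwasawa decomposition -/
theorem exists_ut (g : GL (Fin 2) K) : ∃ (x a : K) (hx : x ≠ 0), Ds v 0 (g⁻¹ * ut x a hx) := by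
  -- it is enough to find an element of the stabiliser
  have key : ∀ g : GL (Fin 2) K, g.val 1 1 ≠ 0 → Ge v (v (g.val 1 1)) (g.val 1 0) →
      ∃ (x a : K) (hx : x ≠ 0), Ds v 0 (g⁻¹ * ut x a hx) := by
    intro g hd hc
    set d := g.val 1 1 with hd'
    set c := g.val 1 0 with hc'
    set q := g.val 0 1 with hq'
    set r := g.val 0 0 with hr'
    have hdet : g.val.det ≠ 0 := g.det.ne_zero
    rw [Matrix.det_fin_two] at hdet
    have hx : (r - q * (c / d)) / d ≠ 0 := by
      refine div_ne_zero ?_ hd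
      intro h
      apply hdet
      field_simp at h
      linear_combination h
    -- the lower triangular matrix
    let z : GL (Fin 2) K :=
      ⟨!![d⁻¹, 0; -(c / d) * d⁻¹, d⁻¹], !![d, 0; c, d], by
        ext i j
        fin_cases i <;> fin_cases j <;> simp [Matrix.mul_apply, Fin.sum_univ_two, hd]
        field_simp
        ring, by
        ext i j
        fin_cases i <;> fin_cases j <;> simp [Matrix.mul_apply, Fin.sum_univ_two, hd]
        field_simp
        ring⟩
    have hz : g * z = ut ((r - q * (c / d)) / d) (q / d) hx := by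
      apply Units.ext
      ext i j
      fin_cases i <;> fin_cases j
      · show (g.val * z.val) 0 0 = _
        rw [Matrix.mul_apply, Fin.sum_univ_two]
        show r * d⁻¹ + q * (-(c / d) * d⁻¹) = (r - q * (c / d)) / d
        field_simp
        ring
      · show (g.val * z.val) 0 1 = _
        rw [Matrix.mul_apply, Fin.sum_univ_two]
        show r * 0 + q * d⁻¹ = q / d
        field_simp
        ring
      · show (g.val * z.val) 1 0 = _
        rw [Matrix.mul_apply, Fin.sum_univ_two]
        show c * d⁻¹ + d * (-(c / d) * d⁻¹) = 0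
        field_simp
        ring
      · show (g.val * z.val) 1 1 = _
        rw [Matrix.mul_apply, Fin.sum_univ_two]
        show c * 0 + d * d⁻¹ = 1
        field_simp
        ring
    refine ⟨_, q / d, hx, ?_⟩
    rw [← hz, inv_mul_cancel_left]
    have hdi : v d⁻¹ = - v d := hv.inv hd
    refine ⟨- v d, ?_, ?_⟩
    · intro i j
      fin_cases i <;> fin_cases j
      · show Ge v (- v d) d⁻¹
        intro _
        rw [hdi]
      · exact fun h => absurd rfl h
      · show Ge v (- v d) (-(c / d) * d⁻¹)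
        have h1 : -(c / d) * d⁻¹ = -(c * (d⁻¹ * d⁻¹)) := by
          field_simp
        rw [h1]
        refine ge_neg hv ?_
        have h2 : Ge v (- v d + - v d) (d⁻¹ * d⁻¹) := by
          refine ge_mul hv ?_ ?_ <;>
          · intro _
            rw [hdi]
        have h3 := ge_mul hv hc h2
        rwa [show v d + (- v d + - v d) = - v d by ring] at h3
      · show Ge v (- v d) d⁻¹
        intro _
        rw [hdi]
    · unfold vd
      have h1 : z.det.val = d⁻¹ * d⁻¹ := by
        show z.val.det = _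
        rw [Matrix.det_fin_two]
        show d⁻¹ * d⁻¹ - 0 * _ = _
        ring
      rw [h1, hv.mul _ _ (inv_ne_zero hd) (inv_ne_zero hd), hdi]
      ring
  have hdet : g.val.det ≠ 0 := g.det.ne_zero
  rw [Matrix.det_fin_two] at hdet
  by_cases h : g.val 1 1 ≠ 0 ∧ Ge v (v (g.val 1 1)) (g.val 1 0)
  · exact key g h.1 h.2
  · -- exchange the columns
    let w : GL (Fin 2) K := ⟨!![0, 1; 1, 0], !![0, 1; 1, 0], by
        ext i j
        fin_cases i <;> fin_cases j <;> simp [Matrix.mul_apply, Fin.sum_univ_two], by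
        ext i j
        fin_cases i <;> fin_cases j <;> simp [Matrix.mul_apply, Fin.sum_univ_two]⟩
    have hw : Ds v 0 w := by
      refine ⟨0, ?_, ?_⟩
      · intro i j
        fin_cases i <;> fin_cases j
        · exact fun h => absurd rfl h
        · exact (ge_one_iff hv).2 le_rfl
        · exact (ge_one_iff hv).2 le_rfl
        · exact fun h => absurd rfl h
      · unfold vd
        have h1 : w.det.val = -1 := by
          show w.val.det = _
          rw [Matrix.det_fin_two]
          show (0 : K) * 0 - 1 * 1 = -1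
          ring
        rw [h1, hv.neg_one]
        ring
    have e1 : (g * w).val 1 1 = g.val 1 0 := by
      show (g.val * w.val) 1 1 = _
      rw [Matrix.mul_apply, Fin.sum_univ_two]
      show g.val 1 0 * 1 + g.val 1 1 * 0 = _
      ring
    have e2 : (g * w).val 1 0 = g.val 1 1 := by
      show (g.val * w.val) 1 0 = _
      rw [Matrix.mul_apply, Fin.sum_univ_two]
      show g.val 1 0 * 0 + g.val 1 1 * 1 = _
      ring
    have h10 : g.val 1 0 ≠ 0 := by
      intro h0
      by_cases h1 : g.val 1 1 = 0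
      · rw [h0, h1] at hdet
        simp at hdet
      · exact h ⟨h1, fun h2 => absurd h0 h2⟩
    have h11 : Ge v (v (g.val 1 0)) (g.val 1 1) := by
      intro h1
      by_contra h2
      push Not at h2
      exact h ⟨h1, fun _ => h2.le⟩
    obtain ⟨x, a, hx, h3⟩ := key (g * w) (by rw [e1]; exact h10) (by rw [e1, e2]; exact h11)
    refine ⟨x, a, hx, ?_⟩
    have h4 := Ds.mul hv hw h3
    rw [_root_.mul_inv_rev, mul_assoc, mul_inv_cancel_left] at h4
    simpa using h4

open Classical in
/-- the height -/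
noncomputable def hgt (x : Vx hv) : ℤ :=
  v (exists_ut hv (Quotient.out x)).choose

theorem exists_eq (x : Vx hv) : ∃ (y a : K) (hy : y ≠ 0), x = (ut y a hy : Vx hv) ∧ hgt hv x = v y := by
  obtain ⟨a, hy, h⟩ := (exists_ut hv (Quotient.out x)).choose_spec
  refine ⟨_, a, hy, ?_, rfl⟩
  rw [← (eq_iff hv).2 h]
  exact (Quotient.out_eq x).symm

theorem hgt_ut (y a : K) (hy : y ≠ 0) : hgt hv (ut y a hy : Vx hv) = v y := by
  obtain ⟨z, b, hz, h1, h2⟩ := exists_eq hv (ut y a hy : Vx hv)
  rw [h2]
  rw [eq_iff hv, ds_ut hv] at h1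
  obtain ⟨n, h3, h4, h5, -⟩ := h1
  omega

theorem vx_eq {x a y b : K} (hx : x ≠ 0) (hy : y ≠ 0) (h : v x = v y) (hab : Ge v (v x) (b - a)) :
    (ut x a hx : Vx hv) = (ut y b hy : Vx hv) := by
  rw [eq_iff hv, ds_ut hv]
  exact ⟨0, le_rfl, by simp, by rw [h]; ring, by rwa [zero_add]⟩

theorem isTree : (Tv hv).IsTree := by
  obtain ⟨p, hp, hvp⟩ := hv.unif
  have hpi : v p⁻¹ = -1 := by rw [hv.inv hp, hvp]
  refine ⟨?_, ?_⟩
  · -- connected
    -- the lower neighbour
    have down : ∀ (x a : K) (hx : x ≠ 0),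
        (Tv hv).Adj (ut x a hx : Vx hv) (ut (x * p⁻¹) a (mul_ne_zero hx (inv_ne_zero hp)) : Vx hv) := by
      intro x a hx
      rw [adj_iff hv, ds_ut hv]
      refine ⟨-1, by norm_num, by norm_num, ?_, ?_⟩
      · rw [hv.mul _ _ hx (inv_ne_zero hp), hpi]
        ring
      · rw [sub_self]
        exact fun h => absurd rfl h
    have downs : ∀ (n : ℕ) (x a : K) (hx : x ≠ 0), ∃ (y : K) (hy : y ≠ 0), v y = v x - n ∧
        (Tv hv).Reachable (ut x a hx : Vx hv) (ut y a hy : Vx hv) := by
      intro n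
      induction n with
      | zero => exact fun x a hx => ⟨x, hx, by simp, SimpleGraph.Reachable.refl _⟩
      | succ n ih =>
        intro x a hx
        obtain ⟨y, hy, h1, h2⟩ := ih x a hx
        refine ⟨y * p⁻¹, mul_ne_zero hy (inv_ne_zero hp), ?_, h2.trans (down y a hy).reachable⟩
        rw [hv.mul _ _ hy (inv_ne_zero hp), hpi, h1]
        push_cast
        ring
    refine SimpleGraph.Connected.mk ?_
    intro x y
    obtain ⟨s, a, hs, rfl, -⟩ := exists_eq hv x
    obtain ⟨t, b, ht, rfl, -⟩ := exists_eq hv y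
    -- a low height
    set N : ℤ := min (min (v s) (v t)) (v (b - a)) with hN
    obtain ⟨s', hs', h1, h2⟩ := downs (v s - N).toNat s a hs
    obtain ⟨t', ht', h3, h4⟩ := downs (v t - N).toNat t b ht
    have h5 : v s' = N := by
      rw [h1, Int.toNat_of_nonneg (by omega)]
      ring
    have h6 : v t' = N := by
      rw [h3, Int.toNat_of_nonneg (by omega)]
      ring
    have h7 : (ut s' a hs' : Vx hv) = (ut t' b ht' : Vx hv) := by
      refine vx_eq hv hs' ht' (h5.trans h6.symm) ?_
      intro _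
      rw [h5]
      omega
    rw [h7] at h2
    exact h2.trans h4.symm
  · refine acyclic_of_height _ (hgt hv) ?_ ?_
    · intro x y h
      obtain ⟨s, a, hs, rfl, e1⟩ := exists_eq hv x
      obtain ⟨t, b, ht, rfl, e2⟩ := exists_eq hv y
      rw [adj_iff hv, ds_ut hv] at h
      obtain ⟨n, h1, h2, h3, -⟩ := h
      rw [e1, e2]
      omega
    · intro x y z h h' h1 h2
      obtain ⟨s, a, hs, rfl, e1⟩ := exists_eq hv x
      obtain ⟨t, b, ht, rfl, e2⟩ := exists_eq hv y
      obtain ⟨r, c, hr, rfl, e3⟩ := exists_eq hv z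
      rw [adj_iff hv, ds_ut hv] at h h'
      obtain ⟨n, -, -, h3, h4⟩ := h
      obtain ⟨m, -, -, h5, h6⟩ := h'
      rw [e1, e2] at h1
      rw [e1, e3] at h2
      have hn : n = -1 := by omega
      have hm : m = -1 := by omega
      subst hn hm
      refine vx_eq hv ht hr (by omega) ?_
      have h7 : c - b = (c - a) + -(b - a) := by ring
      rw [h7]
      have h8 : v t = -1 + v s := by omega
      rw [h8]
      exact ge_add hv h6 (ge_neg hv h4)

end Pool.Agent.H54.TT
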