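import Pool.Agent.H54.TT.SCp

/-!
# Groups which act on two trees
-/

set_option autoImplicit false

namespace Pool.Agent.H54.TT

open Pool.Agent.H54.CX Pool.Agent.H98.FJ Pool.Agent.H52.T2 Pool.Agent.H52.T3

variable {V V' : Type}

/-- the group preserves adjacency and colours -/
structure Ac (S : CTree V) (G : Type) [Group G] [MulAction G V] : Prop where
  adj : ∀ (g : G) (a b : V), S.G.Adj a b → S.G.Adj (g • a) (g • b)
  col : ∀ (g : G) (a : V), S.col (g • a) = S.col a

section act

variable {S : CTree V} {G : Type} [Group G] [MulAction G V]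

/-- the action on the edges -/
@[reducible] def edAct (h : Ac S G) : MulAction G (Ed S) where
  smul g e := ⟨(g • e.1.1, g • e.1.2), h.adj g _ _ e.2.1, (h.col g _).trans e.2.2⟩
  one_smul e := Subtype.ext (Prod.ext (one_smul _ _) (one_smul _ _))
  mul_smul g g' e := Subtype.ext (Prod.ext (mul_smul _ _ _) (mul_smul _ _ _))

/-- the action on the cells -/
@[reducible] def cellAct (h : Ac S G) : MulAction G (Cell S) :=
  letI := edAct h
  { smul := fun g x => match x with
      | Sum.inl v => Sum.inl (g • v)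
      | Sum.inr e => Sum.inr (g • e)
    one_smul := by
      rintro (v | e)
      · exact congrArg Sum.inl (one_smul G v)
      · exact congrArg Sum.inr (one_smul G e)
    mul_smul := by
      rintro g g' (v | e)
      · exact congrArg Sum.inl (mul_smul g g' v)
      · exact congrArg Sum.inr (mul_smul g g' e) }

theorem fc_smul (h : Ac S G) (g : G) {x y : Cell S} (hf : Fc S x y) :
    letI := cellAct h
    Fc S (g • x) (g • y) := by
  rcases x with v | e <;> rcases y with w | f
  · exact hf
  · rcases hf with hf | hf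
    · exact Or.inl (congrArg (g • ·) hf)
    · exact Or.inr (congrArg (g • ·) hf)
  · exact hf
  · exact hf

theorem dm_smul (h : Ac S G) (g : G) (x : Cell S) :
    letI := cellAct h
    dm S (g • x) = dm S x := by
  rcases x with v | e <;> rfl

theorem ty_smul (h : Ac S G) (g : G) (x : Cell S) :
    letI := cellAct h
    ty S (g • x) = ty S x := by
  rcases x with v | e
  · exact congrArg some (h.col g v)
  · rfl

/-- a vertex of a cell -/
def vt (S : CTree V) : Cell S → V
  | Sum.inl v => v
  | Sum.inr e => e.1.1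

theorem vt_smul (h : Ac S G) (g : G) (x : Cell S) :
    letI := cellAct h
    vt S (g • x) = g • vt S x := by
  rcases x with v | e <;> rfl

end act

section

variable {C : (G : Type) → [Group G] → Prop}

/-- the action on the pairs of cells -/
@[reducible] def prAct {S : CTree V} {T : CTree V'} {G : Type} [Group G] [MulAction G V]
    [MulAction G V'] (hS : Ac S G) (hT : Ac T G) : MulAction G (Pr S T) :=
  letI := cellAct hS
  letI := cellAct hT
  Prod.mulAction

theorem lt_smul {S : CTree V} {T : CTree V'} {G : Type} [Group G] [MulAction G V]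
    [MulAction G V'] (hS : Ac S G) (hT : Ac T G) (g : G) {x y : Pr S T} (h : Lt S T x y) :
    letI := prAct hS hT
    Lt S T (g • x) (g • y) := by
  letI := prAct hS hT
  letI := cellAct hS
  letI := cellAct hT
  obtain ⟨h0, h1, h2⟩ := h
  refine ⟨fun h3 => h0 (smul_left_cancel g h3), ?_, ?_⟩
  · rcases h1 with h1 | h1
    · exact Or.inl (congrArg (g • ·) h1)
    · exact Or.inr (fc_smul hS g h1)
  · rcases h2 with h2 | h2
    · exact Or.inl (congrArg (g • ·) h2)
    · exact Or.inr (fc_smul hT g h2)

theorem ta {S : CTree V} {T : CTree V'} {G : Type} [Group G] [MulAction G V]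
    [MulAction G V'] (hS : Ac S G) (hT : Ac T G) :
    letI := prAct hS hT
    TA0 (X S T) (tau S T) G := by
  letI := prAct hS hT
  letI := cellAct hS
  letI := cellAct hT
  have he : ∀ (g : G) (x y : Pr S T), PE S T x y → PE S T (g • x) (g • y) := by
    rintro g x y (h | h)
    · exact Or.inl (lt_smul hS hT g h)
    · exact Or.inr (lt_smul hS hT g h)
  have hk : ∀ (g : G) (x : Pr S T), kd S T (g • x) = kd S T x := by
    intro g x
    show 2 - (dm S (g • x.1) + dm T (g • x.2)) = _
    rw [dm_smul hS, dm_smul hT]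
    rfl
  refine ⟨⟨he, ?_, ?_⟩, ?_⟩
  · rintro g x y z ⟨h1, h2, h3⟩
    exact ⟨he g _ _ h1, he g _ _ h2, he g _ _ h3⟩
  · intro g x y _
    show L2 (kd S T (g • x)) (kd S T (g • y)) 2 2 = _
    rw [hk, hk]
    rfl
  · intro g x
    show (ty S (g • x.1), ty T (g • x.2)) = _
    rw [ty_smul hS, ty_smul hT]
    rfl

theorem finCell (S : CTree V) (T : CTree V') :
    Pool.Agent.H59.DE.FinCell (X S T) (kd S T) := by
  intro c hc
  obtain ⟨e, f, rfl⟩ := kd0 hc
  have key : ∀ {W : Type} (R : CTree W) (e : Ed R), {x : Cell R | Le R x (Sum.inr e)}.Finite := by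
    intro W R e
    refine Set.Finite.subset (Set.toFinite
      ({Sum.inl e.1.1, Sum.inl e.1.2, Sum.inr e} : Set (Cell R))) ?_
    rintro (x | x) hx
    · rcases le_lr.1 hx with h | h
      · left; rw [h]
      · right; left; rw [h]
    · right; right
      rw [Set.mem_singleton_iff, le_rr.1 hx]
  refine Set.Finite.subset ((key S e).prod (key T f)) ?_
  rintro x hx
  have hx' : PE S T (Sum.inr e, Sum.inr f) x := hx
  have h1 := PE.kd_ne hx'
  have h2 := PE.lt (Or.symm hx') (by omega)
  exact ⟨h2.2.1, h2.2.2⟩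

open Classical in
/-- two coloured trees -/
theorem two_col (hC : Inherits C) (hE : Extension C) (h2 : Cat2 C) {S : CTree V} {T : CTree V'}
    {G : Type} [Group G] [MulAction G V] [MulAction G V'] (hS : Ac S G) (hT : Ac T G)
    (hloc : ∀ (F : Finset V) (F' : Finset V'), ∃ (Q : Type) (_ : Group Q) (f : G →* Q), C Q ∧
      ∀ v ∈ F, ∀ w ∈ F', ∀ g : G, g • v = v → g • w = w → f g = 1 → g = 1) : C G := by
  letI := prAct hS hT
  refine TL hC hE h2 (tc S T) ⟨2, fun _ _ => le_rfl⟩ (sc S T) (ta hS hT) (finCell S T) ?_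
  intro F
  obtain ⟨Q, _, f, hQ, hf⟩ := hloc (F.image fun x => vt S x.1) (F.image fun x => vt T x.2)
  refine ⟨Q, inferInstance, f, hQ, ?_⟩
  intro x hx g hg hfg
  letI := cellAct hS
  letI := cellAct hT
  have h3 : g • x.1 = x.1 := congrArg Prod.fst hg
  have h4 : g • x.2 = x.2 := congrArg Prod.snd hg
  refine hf _ (Finset.mem_image_of_mem _ hx) _ (Finset.mem_image_of_mem _ hx) g ?_ ?_ hfg
  · show g • vt S x.1 = vt S x.1
    rw [← vt_smul hS, h3]
  · show g • vt T x.2 = vt T x.2
    rw [← vt_smul hT, h4]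

/-- two coloured trees, finite stabilisers -/
theorem two_col_fin (hC : Inherits C) (h2 : Cat2 C) {S : CTree V} {T : CTree V'}
    {G : Type} [Group G] [MulAction G V] [MulAction G V'] (hS : Ac S G) (hT : Ac T G)
    (hfin : ∀ (v : V) (w : V'), {g : G | g • v = v ∧ g • w = w}.Finite) : C G := by
  letI := prAct hS hT
  have hX : TA2 G (X S T) (kd S T) (tau S T) mu := ⟨tc S T, sc S T, ta hS hT⟩
  refine CX.main h2 hC.colim hX.act.inv hX.sc (Pool.Agent.H54.AR2.tc_link2 hX.tc) ?_
  intro x
  letI := cellAct hS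
  letI := cellAct hT
  refine Set.Finite.to_subtype ((hfin (vt S x.1) (vt T x.2)).subset ?_)
  intro g hg
  have hg' : g • x = x := hg
  have h3 : g • x.1 = x.1 := congrArg Prod.fst hg'
  have h4 : g • x.2 = x.2 := congrArg Prod.snd hg'
  refine ⟨?_, ?_⟩
  · show g • vt S x.1 = vt S x.1
    rw [← vt_smul hS, h3]
  · show g • vt T x.2 = vt T x.2
    rw [← vt_smul hT, h4]

end

end Pool.Agent.H54.TT
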