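import Pool.Agent.H54.TT.Hgt

/-!
# The tree of a field with a discrete valuation

`v : K → ℤ` is a discrete valuation (the value at zero is not used). The vertices of the tree are the cosets of the subgroup
`Z` of `GL₂(K)` of the matrices whose determinant has valuation `2 n` and whose entries have valuations at least `n`, for
some `n` (this is the product of the centre and of `GL₂` of the valuation ring); two vertices `g Z`, `h Z` are adjacent if the
determinant of `g⁻¹ h` has valuation `2 n + 1` and the entries have valuations at least `n`, for some `n`.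
-/

set_option autoImplicit false

namespace Pool.Agent.H54.TT

open Matrix

variable {K : Type} [Field K]

/-- discrete valuations; the value at zero is not used -/
structure IsDV (v : K → ℤ) : Prop where
  mul : ∀ x y, x ≠ 0 → y ≠ 0 → v (x * y) = v x + v y
  add : ∀ x y, x ≠ 0 → y ≠ 0 → x + y ≠ 0 → min (v x) (v y) ≤ v (x + y)
  unif : ∃ p, p ≠ 0 ∧ v p = 1

/-- valuation at least `n` -/
def Ge (v : K → ℤ) (n : ℤ) (x : K) : Prop := x ≠ 0 → n ≤ v x

section

variable {v : K → ℤ} (hv : IsDV v)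
include hv

theorem IsDV.one : v 1 = 0 := by
  have := hv.mul 1 1 one_ne_zero one_ne_zero
  rw [one_mul] at this
  omega

theorem IsDV.inv {x : K} (hx : x ≠ 0) : v x⁻¹ = - v x := by
  have := hv.mul x x⁻¹ hx (inv_ne_zero hx)
  rw [mul_inv_cancel₀ hx, hv.one] at this
  omega

theorem IsDV.neg_one : v (-1) = 0 := by
  have := hv.mul (-1) (-1) (by simp) (by simp)
  rw [neg_mul_neg, one_mul, hv.one] at this
  omega

theorem IsDV.neg {x : K} (hx : x ≠ 0) : v (-x) = v x := by
  have := hv.mul (-1) x (by simp) hx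
  rw [neg_one_mul, hv.neg_one] at this
  omega

theorem ge_zero (n : ℤ) : Ge v n 0 := fun h => absurd rfl h

theorem ge_add {n : ℤ} {x y : K} (hx : Ge v n x) (hy : Ge v n y) : Ge v n (x + y) := by
  intro h
  by_cases h1 : x = 0
  · subst h1
    rw [zero_add] at h ⊢
    exact hy h
  · by_cases h2 : y = 0
    · subst h2
      rw [add_zero] at h ⊢
      exact hx h
    · exact (le_min (hx h1) (hy h2)).trans (hv.add x y h1 h2 h)

theorem ge_neg {n : ℤ} {x : K} (hx : Ge v n x) : Ge v n (-x) := by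
  intro h
  have h1 : x ≠ 0 := by
    rintro rfl
    simp at h
  rw [hv.neg h1]
  exact hx h1

theorem ge_mul {n m : ℤ} {x y : K} (hx : Ge v n x) (hy : Ge v m y) : Ge v (n + m) (x * y) := by
  intro h
  have h1 : x ≠ 0 := left_ne_zero_of_mul h
  have h2 : y ≠ 0 := right_ne_zero_of_mul h
  rw [hv.mul x y h1 h2]
  exact add_le_add (hx h1) (hy h2)

theorem Ge.mono' {n m : ℤ} {x : K} (h : m ≤ n) (hx : Ge v n x) : Ge v m x := fun h' => h.trans (hx h')

end

/-- all entries have valuation at least `n` -/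
def GeM (v : K → ℤ) (n : ℤ) (M : Matrix (Fin 2) (Fin 2) K) : Prop := ∀ i j, Ge v n (M i j)

section

variable {v : K → ℤ} (hv : IsDV v)
include hv

theorem geM_mul {n m : ℤ} {M N : Matrix (Fin 2) (Fin 2) K} (hM : GeM v n M) (hN : GeM v m N) :
    GeM v (n + m) (M * N) := by
  intro i j
  rw [Matrix.mul_apply, Fin.sum_univ_two]
  exact ge_add hv (ge_mul hv (hM _ _) (hN _ _)) (ge_mul hv (hM _ _) (hN _ _))

theorem geM_one : GeM v 0 (1 : Matrix (Fin 2) (Fin 2) K) := by
  intro i j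
  rw [Matrix.one_apply]
  split_ifs
  · intro _
    rw [hv.one]
  · exact ge_zero hv 0

/-- the entries of the inverse matrix -/
theorem geM_inv {n : ℤ} {g : GL (Fin 2) K} (hM : GeM v n g.val) :
    GeM v (n - v g.det.val) (g⁻¹).val := by
  have hd : g.det.val ≠ 0 := g.det.ne_zero
  have hd' : (g.val).det ≠ 0 := hd
  have h1 : (g⁻¹).val = (g.val.det)⁻¹ • g.val.adjugate := by
    rw [Matrix.coe_units_inv, Matrix.inv_def, Ring.inverse_eq_inv']
  have h2 : Ge v (- v g.det.val) ((g.val.det)⁻¹) := by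
    intro _
    rw [hv.inv hd']
    exact le_rfl
  have h3 : ∀ i j, Ge v n (g.val.adjugate i j) := by
    intro i j
    rw [Matrix.adjugate_fin_two]
    fin_cases i <;> fin_cases j
    · exact hM 1 1
    · exact ge_neg hv (hM 0 1)
    · exact ge_neg hv (hM 1 0)
    · exact hM 0 0
  intro i j
  rw [h1, Matrix.smul_apply, smul_eq_mul, sub_eq_neg_add]
  exact ge_mul hv h2 (h3 i j)

end

/-- the valuation of the determinant -/
def vd (v : K → ℤ) (g : GL (Fin 2) K) : ℤ := v g.det.val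

section

variable {v : K → ℤ} (hv : IsDV v)
include hv

theorem vd_mul (g h : GL (Fin 2) K) : vd v (g * h) = vd v g + vd v h := by
  unfold vd
  rw [map_mul, Units.val_mul]
  exact hv.mul _ _ g.det.ne_zero h.det.ne_zero

theorem vd_one : vd v (1 : GL (Fin 2) K) = 0 := by
  unfold vd
  rw [map_one, Units.val_one]
  exact hv.one

theorem vd_inv (g : GL (Fin 2) K) : vd v g⁻¹ = - vd v g := by
  have := vd_mul hv g g⁻¹
  rw [mul_inv_cancel, vd_one hv] at this
  omega

end

/-- the relation between `g⁻¹ h` and the distance `j ∈ {0, 1}` -/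
def Ds (v : K → ℤ) (j : ℤ) (g : GL (Fin 2) K) : Prop := ∃ n, GeM v n g.val ∧ vd v g = 2 * n + j

section

variable {v : K → ℤ} (hv : IsDV v)
include hv

theorem Ds.mul {j j' : ℤ} {g h : GL (Fin 2) K} (hg : Ds v j g) (hh : Ds v j' h) :
    Ds v (j + j') (g * h) := by
  obtain ⟨n, h1, h2⟩ := hg
  obtain ⟨m, h3, h4⟩ := hh
  refine ⟨n + m, geM_mul hv h1 h3, ?_⟩
  rw [vd_mul hv, h2, h4]
  ring

theorem Ds.inv {j : ℤ} {g : GL (Fin 2) K} (hg : Ds v j g) : Ds v j g⁻¹ := by
  obtain ⟨n, h1, h2⟩ := hg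
  refine ⟨n - vd v g, geM_inv hv h1, ?_⟩
  rw [vd_inv hv, h2]
  ring

theorem Ds.one : Ds v 0 (1 : GL (Fin 2) K) := ⟨0, geM_one hv, by rw [vd_one hv]; ring⟩

end

/-- the stabiliser of the base vertex -/
def Zs {v : K → ℤ} (hv : IsDV v) : Subgroup (GL (Fin 2) K) where
  carrier := {g | Ds v 0 g}
  mul_mem' := by
    intro g h hg hh
    have := Ds.mul hv hg hh
    exact this
  one_mem' := Ds.one hv
  inv_mem' := fun h => Ds.inv hv h

/-- the vertices -/
abbrev Vx {v : K → ℤ} (hv : IsDV v) : Type := GL (Fin 2) K ⧸ Zs hv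

theorem eq_iff {v : K → ℤ} (hv : IsDV v) {g h : GL (Fin 2) K} :
    ((g : Vx hv) = (h : Vx hv)) ↔ Ds v 0 (g⁻¹ * h) := QuotientGroup.eq

/-- the tree -/
def Tv {v : K → ℤ} (hv : IsDV v) : SimpleGraph (Vx hv) where
  Adj x y := ∃ g h : GL (Fin 2) K, x = (g : Vx hv) ∧ y = (h : Vx hv) ∧ Ds v 1 (g⁻¹ * h)
  symm := ⟨by
    rintro x y ⟨g, h, rfl, rfl, h1⟩
    refine ⟨h, g, rfl, rfl, ?_⟩
    have := Ds.inv hv h1
    rwa [_root_.mul_inv_rev, inv_inv] at this⟩
  loopless := ⟨by
    rintro x ⟨g, h, h1, h2, n, -, h3⟩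
    obtain ⟨m, -, h4⟩ := (eq_iff hv).1 (h1.symm.trans h2)
    rw [h3] at h4
    omega⟩

theorem adj_iff {v : K → ℤ} (hv : IsDV v) {g h : GL (Fin 2) K} :
    (Tv hv).Adj (g : Vx hv) (h : Vx hv) ↔ Ds v 1 (g⁻¹ * h) := by
  constructor
  · rintro ⟨g', h', h1, h2, h3⟩
    have e1 := (eq_iff hv).1 h1
    have e2 := (eq_iff hv).1 h2.symm
    have e3 := Ds.mul hv (Ds.mul hv e1 h3) e2
    rw [show g⁻¹ * g' * (g'⁻¹ * h') * (h'⁻¹ * h) = g⁻¹ * h by group] at e3
    simpa using e3
  · intro h1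
    exact ⟨g, h, rfl, rfl, h1⟩

theorem adj_smul {v : K → ℤ} (hv : IsDV v) (k : GL (Fin 2) K) (x y : Vx hv)
    (h : (Tv hv).Adj x y) : (Tv hv).Adj (k • x) (k • y) := by
  obtain ⟨g, h', rfl, rfl, h1⟩ := h
  refine ⟨k * g, k * h', rfl, rfl, ?_⟩
  rw [_root_.mul_inv_rev, mul_assoc, inv_mul_cancel_left]
  exact h1

/-- the stabilisers are bounded -/
theorem stab_bdd {v : K → ℤ} (hv : IsDV v) (x : Vx hv) :
    ∃ N : ℤ, ∀ g : GL (Fin 2) K, vd v g = 0 → g • x = x → GeM v N g.val := by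
  obtain ⟨h, rfl⟩ := QuotientGroup.mk_surjective x
  -- lower bounds for the entries of `h` and `h⁻¹`
  have hb : ∀ M : Matrix (Fin 2) (Fin 2) K, ∃ n, GeM v n M := by
    intro M
    refine ⟨min (min (v (M 0 0)) (v (M 0 1))) (min (v (M 1 0)) (v (M 1 1))), ?_⟩
    intro i j _
    fin_cases i <;> fin_cases j
    · exact (min_le_left _ _).trans (min_le_left _ _)
    · exact (min_le_left _ _).trans (min_le_right _ _)
    · exact (min_le_right _ _).trans (min_le_left _ _)
    · exact (min_le_right _ _).trans (min_le_right _ _)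
  obtain ⟨a, ha⟩ := hb h.val
  obtain ⟨b, hb⟩ := hb (h⁻¹).val
  refine ⟨a + 0 + b, ?_⟩
  intro g hg hx
  have h1 : Ds v 0 ((g * h)⁻¹ * h) := (eq_iff hv).1 hx
  have h2 : Ds v 0 (h⁻¹ * g * h) := by
    have := Ds.inv hv h1
    rwa [_root_.mul_inv_rev, inv_inv, ← mul_assoc] at this
  obtain ⟨n, h3, h4⟩ := h2
  rw [vd_mul hv, vd_mul hv, vd_inv hv, hg] at h4
  have hn : n = 0 := by omega
  subst hn
  have h5 := geM_mul hv (geM_mul hv ha h3) hb
  have h6 : h.val * (h⁻¹ * g * h).val * (h⁻¹).val = g.val := by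
    rw [← Units.val_mul, ← Units.val_mul]
    congr 1
    group
  rwa [h6] at h5

end Pool.Agent.H54.TT
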